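import Pool.Agent.Helper33E.Sum

/-!
The active terms of a window.
-/

set_option autoImplicit false

open Filter Topology

namespace Pool.Agent.Helper33E

/-- `(1 + 4 / (m + 1)) ^ L - 1` -/
noncomputable def eta (m : ℕ) : ℝ := (1 + 4 / (m + 1 : ℝ)) ^ LL (m + 1) - 1

theorem eta_nonneg (m : ℕ) : 0 ≤ eta m := by
  unfold eta
  have : (1:ℝ) ≤ (1 + 4 / (m + 1 : ℝ)) ^ LL (m + 1) := by
    apply one_le_pow₀
    have : (0:ℝ) ≤ 4 / (m + 1 : ℝ) := by positivity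
    linarith
  linarith

theorem dist_le (m k : ℕ) (hm : 1 ≤ m) (hk : k = m ∨ k = m + 1) (r : ℝ) (h1 : (m:ℝ) + 1/2 ≤ r)
    (h2 : r ≤ (m:ℝ) + 3/2) : |r / R k - 1| + |(r / R k)⁻¹ - 1| ≤ 4 / (m + 1 : ℝ) := by
  have hm0 : (1:ℝ) ≤ m := by exact_mod_cast hm
  have hr : 0 < r := by linarith
  have hR := R_pos k
  have hR1 : (m:ℝ) + 1 ≤ R k := by
    rcases hk with h | h
    · subst h; unfold R; linarith
    · subst h; unfold R; push_cast; linarith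
  have hd : |r - R k| ≤ 3/2 := by
    rw [abs_le]
    rcases hk with h | h
    · subst h; unfold R; constructor <;> linarith
    · subst h; unfold R; push_cast; constructor <;> linarith
  have e1 : |r / R k - 1| = |r - R k| / R k := by
    have : r / R k - 1 = (r - R k) / R k := by field_simp
    rw [this, abs_div, abs_of_pos hR]
  have e2 : |(r / R k)⁻¹ - 1| = |r - R k| / r := by
    have : (r / R k)⁻¹ - 1 = -(r - R k) / r := by field_simp; ring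
    rw [this, abs_div, abs_neg, abs_of_pos hr]
  rw [e1, e2]
  have a1 : |r - R k| / R k ≤ (3/2) / (m + 1) := by gcongr
  have a2 : |r - R k| / r ≤ 2 / (m + 1) := by
    rw [div_le_div_iff₀ hr (by positivity)]
    nlinarith [abs_nonneg (r - R k)]
  have a3 : (3/2 : ℝ) / (m + 1) + 2 / (m + 1) ≤ 4 / (m + 1) := by
    rw [← add_div]; gcongr; norm_num
  linarith

theorem mx_le (m k : ℕ) (hm : 1 ≤ m) (hk : k = m ∨ k = m + 1) (r : ℝ) (h1 : (m:ℝ) + 1/2 ≤ r)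
    (h2 : r ≤ (m:ℝ) + 3/2) : mx k r ^ LL k ≤ 1 + eta m := by
  have h := dist_le m k hm hk r h1 h2
  have hm0 : (1:ℝ) ≤ m := by exact_mod_cast hm
  have hr : 0 < r := by linarith
  have hR := R_pos k
  have h3 : mx k r ≤ 1 + 4 / (m + 1 : ℝ) := by
    unfold mx
    apply max_le
    · have := le_abs_self (r / R k - 1)
      have := abs_nonneg ((r / R k)⁻¹ - 1)
      linarith
    · have := abs_nonneg (r / R k - 1)
      have := le_abs_self ((r / R k)⁻¹ - 1)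
      linarith
  have h4 : 0 ≤ mx k r := le_trans (show 0 ≤ r / R k by positivity) (le_max_left _ _)
  have h5 : LL k ≤ LL (m + 1) := Nat.sqrt_le_sqrt (by omega)
  unfold eta
  calc _ ≤ (1 + 4 / (m + 1 : ℝ)) ^ LL k := by gcongr
    _ ≤ (1 + 4 / (m + 1 : ℝ)) ^ LL (m + 1) :=
        pow_le_pow_right₀ (by have : (0:ℝ) ≤ 4 / (m + 1 : ℝ) := by positivity
                              linarith) h5
    _ = _ := by ring

/-- the bump on the circle -/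
noncomputable def uu (q : Fin 3) (z : ℂ) : ℝ := (1 + (z / ‖z‖ * E q).re) / 2

theorem unit (z : ℂ) (hz : z ≠ 0) (q : Fin 3) : ‖z / ‖z‖ * E q‖ = 1 := by
  have : ‖z‖ ≠ 0 := norm_ne_zero_iff.mpr hz
  rw [norm_mul, norm_div, E_norm, Complex.norm_real, norm_norm, div_self this, one_mul]

theorem uu_nonneg (q : Fin 3) (z : ℂ) (hz : z ≠ 0) : 0 ≤ uu q z := by
  have h := (abs_le.mp (Complex.abs_re_le_norm (z / ‖z‖ * E q))).1
  rw [unit z hz] at h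
  unfold uu; linarith

theorem uu_le (q : Fin 3) (z : ℂ) (hz : z ≠ 0) : uu q z ≤ 1 := by
  have h := (abs_le.mp (Complex.abs_re_le_norm (z / ‖z‖ * E q))).2
  rw [unit z hz] at h
  unfold uu; linarith

theorem uu_sum (z : ℂ) : ∑ q, uu q z = 3 / 2 := by
  have h : ∑ q, (z / ‖z‖ * E q).re = 0 := by
    rw [← Complex.re_sum, ← Finset.mul_sum, E_sum, mul_zero, Complex.zero_re]
  rw [Fin.sum_univ_three] at h ⊢
  unfold uu
  linarith

/-- error of a bump -/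
noncomputable def e1 (m : ℕ) : ℝ := eta m + 1 / (LL m + 1 : ℝ)

theorem gg_close (m k : ℕ) (hm : 1 ≤ m) (hk : k = m ∨ k = m + 1) (z : ℂ)
    (h1 : (m:ℝ) + 1/2 ≤ ‖z‖) (h2 : ‖z‖ ≤ (m:ℝ) + 3/2) (q : Fin 3) :
    ‖gg (R k) q z ^ LL k - ((uu q z ^ LL m : ℝ) : ℂ)‖ ≤ e1 m := by
  have hm0 : (1:ℝ) ≤ m := by exact_mod_cast hm
  have hr : 0 < ‖z‖ := by linarith
  have hz : z ≠ 0 := norm_pos_iff.mp hr
  have hR := R_pos k
  have hd := dist_le m k hm hk ‖z‖ h1 h2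
  have hg := gdiff (z / ‖z‖ * E q) (unit z hz q) (‖z‖ / R k) (by positivity)
  have e : gg (R k) q z = (1 + ((‖z‖ / R k : ℝ) : ℂ) * (z / ‖z‖ * E q)) ^ 2 /
      (4 * (((‖z‖ / R k : ℝ) : ℂ) * (z / ‖z‖ * E q))) := by
    have hc : ((‖z‖ / R k : ℝ) : ℂ) * (z / ‖z‖ * E q) = z * (E q / R k) := by
      have : (‖z‖ : ℂ) ≠ 0 := by exact_mod_cast hr.ne'
      have : (R k : ℂ) ≠ 0 := by exact_mod_cast hR.ne'
      push_cast
      field_simp
    unfold gg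
    rw [hc]
  rw [← e] at hg
  have hg2 : ‖gg (R k) q z - (uu q z : ℂ)‖ ≤ 4 / (m + 1 : ℝ) := by
    refine hg.trans ?_
    have := abs_nonneg (‖z‖ / R k - 1)
    have := abs_nonneg ((‖z‖ / R k)⁻¹ - 1)
    linarith
  have hu1 : ‖(uu q z : ℂ)‖ ≤ 1 := by
    rw [Complex.norm_real, Real.norm_eq_abs, abs_of_nonneg (uu_nonneg q z hz)]
    exact uu_le q z hz
  have h3 := powdiff _ _ _ hg2 hu1 (LL k)
  have h5 : LL k ≤ LL (m + 1) := Nat.sqrt_le_sqrt (by omega)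
  have h4 : (1 + 4 / (m + 1 : ℝ)) ^ LL k - 1 ≤ eta m := by
    unfold eta
    have : (1 + 4 / (m + 1 : ℝ)) ^ LL k ≤ (1 + 4 / (m + 1 : ℝ)) ^ LL (m + 1) :=
      pow_le_pow_right₀ (by have : (0:ℝ) ≤ 4 / (m + 1 : ℝ) := by positivity
                            linarith) h5
    linarith
  have h6 : LL k = LL m ∨ LL k = LL m + 1 := by
    rcases hk with h | h
    · left; rw [h]
    · have a : LL m ≤ LL (m + 1) := Nat.sqrt_le_sqrt (by omega)
      have b : LL (m + 1) ≤ LL m + 1 := Nat.sqrt_succ_le_succ_sqrt m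
      rw [h]; omega
  have h7 : ‖(uu q z : ℂ) ^ LL k - ((uu q z ^ LL m : ℝ) : ℂ)‖ ≤ 1 / (LL m + 1 : ℝ) := by
    rcases h6 with h | h
    · rw [h, Complex.ofReal_pow, sub_self, norm_zero]; positivity
    · rw [h, ← Complex.ofReal_pow, ← Complex.ofReal_sub, Complex.norm_real, Real.norm_eq_abs,
        abs_sub_comm]
      have h8 := onemore (uu q z) (uu_nonneg q z hz) (uu_le q z hz) (LL m)
      have h9 : uu q z ^ (LL m + 1) ≤ uu q z ^ LL m :=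
        pow_le_pow_of_le_one (uu_nonneg q z hz) (uu_le q z hz) (by omega)
      rw [abs_of_nonneg (by linarith)]
      exact h8
  have e2 : gg (R k) q z ^ LL k - ((uu q z ^ LL m : ℝ) : ℂ) =
      (gg (R k) q z ^ LL k - (uu q z : ℂ) ^ LL k) +
        ((uu q z : ℂ) ^ LL k - ((uu q z ^ LL m : ℝ) : ℂ)) := by ring
  rw [e2]
  refine (norm_add_le _ _).trans ?_
  unfold e1
  linarith

theorem e1_nonneg (m : ℕ) : 0 ≤ e1 m := by
  have := eta_nonneg m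
  unfold e1; positivity

/-- sum of the bumps -/
noncomputable def SS (m : ℕ) (z : ℂ) : ℝ := ∑ q, uu q z ^ LL m

theorem val_close (C : ℝ) (hC : 0 < C) (c : ℂ) (n m k : ℕ) (hm : 1 ≤ m) (hk : k = m ∨ k = m + 1)
    (z : ℂ) (h1 : (m:ℝ) + 1/2 ≤ ‖z‖) (h2 : ‖z‖ ≤ (m:ℝ) + 3/2) (ka : Fin 3) :
    ‖val C c n (LL k) (R k) ka z - c * z ^ n * ((1 - SS m z + uu ka z ^ LL m / C : ℝ) : ℂ)‖ ≤
      ‖c‖ * ‖z‖ ^ n * (BB C * e1 m) := by
  have e : (1 - SS m z + uu ka z ^ LL m / C : ℝ) = 1 + ∑ q, sg C ka q * uu q z ^ LL m := by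
    unfold SS sg
    simp only [add_mul, Finset.sum_add_distrib, neg_mul, one_mul, Finset.sum_neg_distrib]
    simp only [ite_mul, zero_mul, Finset.sum_ite_eq', Finset.mem_univ, if_true]
    ring
  have e' : val C c n (LL k) (R k) ka z - c * z ^ n * ((1 - SS m z + uu ka z ^ LL m / C : ℝ) : ℂ) =
      c * z ^ n * ∑ q, (sg C ka q : ℂ) * (gg (R k) q z ^ LL k - ((uu q z ^ LL m : ℝ) : ℂ)) := by
    rw [e]
    unfold val
    rw [← mul_sub]
    congr 1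
    push_cast
    simp only [mul_sub, Finset.sum_sub_distrib]
    ring
  rw [e', norm_mul, norm_mul, norm_pow]
  gcongr
  refine (norm_sum_le _ _).trans ?_
  have h3 : ∀ q, ‖(sg C ka q : ℂ) * (gg (R k) q z ^ LL k - ((uu q z ^ LL m : ℝ) : ℂ))‖ =
      |sg C ka q| * ‖gg (R k) q z ^ LL k - ((uu q z ^ LL m : ℝ) : ℂ)‖ := by
    intro q
    rw [norm_mul, Complex.norm_real, Real.norm_eq_abs]
  rw [Finset.sum_congr rfl (fun q _ => h3 q)]
  have h4 := sg_sum C hC ka (fun q => ‖gg (R k) q z ^ LL k - ((uu q z ^ LL m : ℝ) : ℂ)‖) (e1 m)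
    (e1_nonneg m) (fun q => gg_close m k hm hk z h1 h2 q)
  have := e1_nonneg m
  linarith

/-- convex combination, upper bound -/
theorem combo_up (C mu s Ua Ub Uc : ℝ) (hC : 0 < C) (hmu : 0 ≤ mu) (X0 X1 X2 : ℂ) (ha : 0 ≤ Ua)
    (hb : 0 ≤ Ub) (hc : 0 ≤ Uc) (hs : 0 ≤ s) (hS : Ua + Ub + Uc ≤ 1 + 2 * s) (h0 : ‖X0‖ ≤ mu)
    (h1 : ‖X1‖ ≤ mu) (h2 : ‖X2‖ ≤ mu) (hX : ‖X0 + X1 + X2‖ ≤ mu / C) :
    ‖X0 * ((1 - (Ua + Ub + Uc) + Ua / C : ℝ) : ℂ) + X1 * ((1 - (Ua + Ub + Uc) + Ub / C : ℝ) : ℂ) +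
      X2 * ((1 - (Ua + Ub + Uc) + Uc / C : ℝ) : ℂ)‖ ≤ mu / C * (1 + 4 * s) := by
  set S := Ua + Ub + Uc with hSd
  have e : X0 * ((1 - S + Ua / C : ℝ) : ℂ) + X1 * ((1 - S + Ub / C : ℝ) : ℂ) +
      X2 * ((1 - S + Uc / C : ℝ) : ℂ) = ((1 - S : ℝ) : ℂ) * (X0 + X1 + X2) +
      (((Ua / C : ℝ) : ℂ) * X0 + ((Ub / C : ℝ) : ℂ) * X1 + ((Uc / C : ℝ) : ℂ) * X2) := by
    push_cast; ring
  rw [e]
  have n1 : ‖((1 - S : ℝ) : ℂ) * (X0 + X1 + X2)‖ ≤ |1 - S| * (mu / C) := by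
    rw [norm_mul, Complex.norm_real, Real.norm_eq_abs]; gcongr
  have n2 : ‖((Ua / C : ℝ) : ℂ) * X0 + ((Ub / C : ℝ) : ℂ) * X1 + ((Uc / C : ℝ) : ℂ) * X2‖ ≤
      S * (mu / C) := by
    refine (norm_add₃_le).trans ?_
    rw [norm_mul, norm_mul, norm_mul, Complex.norm_real, Complex.norm_real, Complex.norm_real,
      Real.norm_eq_abs, Real.norm_eq_abs, Real.norm_eq_abs, abs_of_nonneg (by positivity),
      abs_of_nonneg (by positivity), abs_of_nonneg (by positivity)]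
    calc _ ≤ Ua / C * mu + Ub / C * mu + Uc / C * mu := by gcongr
      _ = _ := by rw [hSd]; ring
  have h3 : |1 - S| + S ≤ 1 + 4 * s := by
    rcases abs_cases (1 - S) with h | h
    · linarith [h.1]
    · linarith [h.1]
  have hmC : 0 ≤ mu / C := by positivity
  calc _ ≤ _ := norm_add_le _ _
    _ ≤ |1 - S| * (mu / C) + S * (mu / C) := add_le_add n1 n2
    _ = mu / C * (|1 - S| + S) := by ring
    _ ≤ _ := by gcongr

/-- convex combination, lower bound at the centre of the bump of the largest term -/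
theorem combo_low (C mu s Ub Uc : ℝ) (hC : 0 < C) (hmu : 0 ≤ mu) (X0 X1 X2 : ℂ)
    (hb : 0 ≤ Ub) (hc : 0 ≤ Uc) (_hs : 0 ≤ s) (hS : 1 + Ub + Uc ≤ 1 + 2 * s) (h0 : ‖X0‖ = mu)
    (h1 : ‖X1‖ ≤ mu) (h2 : ‖X2‖ ≤ mu) (hX : ‖X0 + X1 + X2‖ ≤ mu / C) :
    mu / C * (1 - 4 * s) ≤ ‖X0 * ((1 - (1 + Ub + Uc) + 1 / C : ℝ) : ℂ) +
      X1 * ((1 - (1 + Ub + Uc) + Ub / C : ℝ) : ℂ) +
      X2 * ((1 - (1 + Ub + Uc) + Uc / C : ℝ) : ℂ)‖ := by
  have e : X0 * ((1 - (1 + Ub + Uc) + 1 / C : ℝ) : ℂ) + X1 * ((1 - (1 + Ub + Uc) + Ub / C : ℝ) : ℂ) +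
      X2 * ((1 - (1 + Ub + Uc) + Uc / C : ℝ) : ℂ) = ((1 / C : ℝ) : ℂ) * X0 -
      (((Ub + Uc : ℝ) : ℂ) * (X0 + X1 + X2) - ((Ub / C : ℝ) : ℂ) * X1 - ((Uc / C : ℝ) : ℂ) * X2) := by
    push_cast; ring
  rw [e]
  have n1 : ‖((Ub + Uc : ℝ) : ℂ) * (X0 + X1 + X2) - ((Ub / C : ℝ) : ℂ) * X1 -
      ((Uc / C : ℝ) : ℂ) * X2‖ ≤ (Ub + Uc) * (mu / C) + Ub / C * mu + Uc / C * mu := by
    refine (norm_sub_le _ _).trans ?_
    refine (add_le_add (norm_sub_le _ _) le_rfl).trans ?_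
    rw [norm_mul, norm_mul, norm_mul, Complex.norm_real, Complex.norm_real, Complex.norm_real,
      Real.norm_eq_abs, Real.norm_eq_abs, Real.norm_eq_abs, abs_of_nonneg (by positivity),
      abs_of_nonneg (by positivity), abs_of_nonneg (by positivity)]
    gcongr
  have n2 : ‖((1 / C : ℝ) : ℂ) * X0‖ = mu / C := by
    rw [norm_mul, Complex.norm_real, Real.norm_eq_abs, abs_of_nonneg (by positivity), h0]
    ring
  have h3 := norm_sub_norm_le (((1 / C : ℝ) : ℂ) * X0) (((Ub + Uc : ℝ) : ℂ) * (X0 + X1 + X2) -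
    ((Ub / C : ℝ) : ℂ) * X1 - ((Uc / C : ℝ) : ℂ) * X2)
  rw [n2] at h3
  have hmC : 0 ≤ mu / C := by positivity
  have h4 : (Ub + Uc) * (mu / C) + Ub / C * mu + Uc / C * mu ≤ mu / C * (4 * s) := by
    have : (Ub + Uc) * (mu / C) + Ub / C * mu + Uc / C * mu = mu / C * (2 * (Ub + Uc)) := by ring
    rw [this]
    exact mul_le_mul_of_nonneg_left (by linarith) hmC
  linarith

end Pool.Agent.Helper33E
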