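import Mathlib

/-!
Basic lemmas for the function of `MP_58b66c_an`: the quadratic block `1 + a w - w ^ 2`, the binomial
bumps and their coefficients.
-/

set_option autoImplicit false

open Filter Topology

namespace Pool.Agent.Helper33E

/-- `s = (1 + √33) / 2` -/
noncomputable def ss : ℝ := (1 + √33) / 2

/-- the middle coefficient `√s` of the block `1 + √s w - w ^ 2` -/
noncomputable def al : ℝ := √ss

theorem ss_ge : 3 ≤ ss := by
  have : (5:ℝ) ≤ √33 := Real.le_sqrt_of_sq_le (by norm_num)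
  unfold ss; linarith

theorem ss_le : ss ≤ 4 := by
  have : √33 ≤ 7 := by
    rw [Real.sqrt_le_left (by norm_num)]; norm_num
  unfold ss; linarith

theorem al_sq : al ^ 2 = ss := Real.sq_sqrt (by have := ss_ge; linarith)

theorem al_ge : 1 ≤ al := by
  have h := ss_ge
  exact Real.le_sqrt_of_sq_le (by linarith)

theorem al_le : al ≤ 2 := by
  unfold al
  rw [Real.sqrt_le_left (by norm_num)]
  have := ss_le
  linarith

theorem al_pos : 0 < al := by have := al_ge; linarith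

/-- the block: `|1 + a w - w²| ≤ √(1 + a² / 4) (1 + |w|²)` -/
theorem block (w : ℂ) : ‖1 + al * w - w ^ 2‖ ≤ √(1 + ss / 4) * (1 + ‖w‖ ^ 2) := by
  have hs := ss_ge
  have h0 : 0 ≤ √(1 + ss / 4) * (1 + ‖w‖ ^ 2) := by positivity
  refine abs_le_of_sq_le_sq' ?_ h0 |>.2
  rw [mul_pow, Real.sq_sqrt (by linarith), Complex.sq_norm, Complex.sq_norm,
    Complex.normSq_apply, Complex.normSq_apply]
  have e1 : (1 + al * w - w ^ 2).re = 1 + al * w.re - (w.re ^ 2 - w.im ^ 2) := by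
    simp [pow_two]
  have e2 : (1 + al * w - w ^ 2).im = al * w.im - 2 * w.re * w.im := by
    simp [pow_two]; ring
  rw [e1, e2, ← al_sq]
  nlinarith [sq_nonneg (2 * w.re - al * (1 - (w.re ^ 2 + w.im ^ 2)) / 2)]

/-- the block against its largest term -/
theorem block' (w : ℂ) (mu : ℝ) (h1 : 1 ≤ mu) (h2 : al * ‖w‖ ≤ mu) (h3 : ‖w‖ ^ 2 ≤ mu) :
    ‖1 + al * w - w ^ 2‖ ≤ √(1 + ss / 4) * (1 + 1 / ss) * mu := by
  have hb := block w
  have hs := ss_ge
  have ha := al_ge
  have hsq := al_sq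
  have hs' : 0 < √(1 + ss / 4) := Real.sqrt_pos.mpr (by linarith)
  have h5 : 1 + ‖w‖ ^ 2 ≤ (1 + 1 / ss) * mu := by
    have hw := norm_nonneg w
    have h6 : ss * (1 + ‖w‖ ^ 2) ≤ (ss + 1) * mu := by
      rw [← hsq]
      rcases le_total (al * ‖w‖) 1 with h | h
      · have : al ^ 2 * ‖w‖ ^ 2 ≤ 1 := by
          rw [← mul_pow]; exact pow_le_one₀ (by positivity) h
        nlinarith
      · rcases le_total ‖w‖ al with h' | h'
        · have h7 : 0 ≤ (al * ‖w‖ - 1) * (al - ‖w‖) :=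
            mul_nonneg (by linarith) (by linarith)
          have h8 : al ^ 2 * (1 + ‖w‖ ^ 2) ≤ (al ^ 2 + 1) * (al * ‖w‖) := by nlinarith
          nlinarith
        · have h7 : al ^ 2 ≤ ‖w‖ ^ 2 := by gcongr
          nlinarith
    have hs0 : 0 < ss := by linarith
    have e : (1 + 1 / ss) * mu = (ss + 1) * mu / ss := by field_simp
    rw [e, le_div_iff₀ hs0]
    linarith
  calc _ ≤ √(1 + ss / 4) * (1 + ‖w‖ ^ 2) := hb
    _ ≤ √(1 + ss / 4) * ((1 + 1 / ss) * mu) := by gcongr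
    _ = _ := by ring

/-- the constant `2 s / ((1 + s) √(4 + s))` -/
theorem const_eq : √(1 + ss / 4) * (1 + 1 / ss) * (2 * ss / ((1 + ss) * √(4 + ss))) = 1 := by
  have hs := ss_ge
  have e : √(1 + ss / 4) = √(4 + ss) / 2 := by
    have : 1 + ss / 4 = (4 + ss) / 2 ^ 2 := by ring
    rw [this, Real.sqrt_div (by linarith), Real.sqrt_sq (by norm_num)]
  rw [e]
  have : 0 < √(4 + ss) := Real.sqrt_pos.mpr (by linarith)
  have : 0 < ss := by linarith
  field_simp
  ring

/-- the coefficient array of `c z ^ n ((1 + z ξ) ^ 2 / (4 z ξ)) ^ L` -/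
noncomputable def P {𝕜 : Type} [Field 𝕜] (c : 𝕜) (n L : ℕ) (xi : 𝕜) (t : ℕ) : 𝕜 :=
  if t + L < n then 0 else
    c * ((Nat.choose (2 * L) (t + L - n) : 𝕜) / 4 ^ L) * xi ^ (t + L - n) / xi ^ L

theorem P_hasSum {𝕜 : Type} [NormedField 𝕜] (c xi z : 𝕜) (n L : ℕ) (hz : z ≠ 0)
    (h : L ≤ n) : HasSum (fun t => P c n L xi t * z ^ t)
      (c * z ^ n * ((1 + z * xi) ^ 2 / (4 * (z * xi))) ^ L) := by
  have key := (hasSum_nat_add_iff' (f := fun t => P c n L xi t * z ^ t) (n - L)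
    (g := c * z ^ n * ((1 + z * xi) ^ 2 / (4 * (z * xi))) ^ L)).mp
  apply key
  have h0 : ∑ i ∈ Finset.range (n - L), P c n L xi i * z ^ i = 0 := by
    apply Finset.sum_eq_zero
    intro i hi
    have := Finset.mem_range.mp hi
    rw [P, if_pos (by omega), zero_mul]
  rw [h0, sub_zero]
  have h1 : ∀ i, P c n L xi (i + (n - L)) * z ^ (i + (n - L)) =
      c * z ^ (n - L) / (4 ^ L * xi ^ L) *
        ((z * xi) ^ i * 1 ^ (2 * L - i) * (Nat.choose (2 * L) i : 𝕜)) := by
    intro i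
    have e : i + (n - L) + L - n = i := by omega
    rw [P, if_neg (by omega), e, pow_add, mul_pow, one_pow]
    ring
  have h2 : c * z ^ n * ((1 + z * xi) ^ 2 / (4 * (z * xi))) ^ L =
      ∑ i ∈ Finset.range (2 * L + 1), P c n L xi (i + (n - L)) * z ^ (i + (n - L)) := by
    rw [Finset.sum_congr rfl (fun i _ => h1 i), ← Finset.mul_sum, ← add_pow, add_comm (z * xi) 1]
    rw [div_pow, ← pow_mul, mul_pow, mul_pow]
    have e : z ^ n = z ^ (n - L) * z ^ L := by rw [← pow_add]; congr 1; omega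
    rw [e]
    have hzL : z ^ L ≠ 0 := pow_ne_zero _ hz
    field_simp
  rw [h2]
  refine hasSum_sum_of_ne_finset_zero ?_
  intro i hi
  have hi' : 2 * L < i := by
    have := Finset.mem_range.not.mp hi
    omega
  rw [h1, Nat.choose_eq_zero_of_lt hi']
  simp

theorem P_norm (c xi : ℂ) (n L t : ℕ) : ‖P c n L xi t‖ = P ‖c‖ n L ‖xi‖ t := by
  unfold P
  split_ifs with h
  · simp
  · simp

/-- the coefficient bound -/
theorem P_le (c xi r : ℝ) (n L t : ℕ) (hc : 0 ≤ c) (hxi : 0 < xi) (hr : 0 < r) (mx : ℝ)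
    (h1 : r * xi ≤ mx) (h2 : (r * xi)⁻¹ ≤ mx) (hL : L ≤ n) :
    P c n L xi t * r ^ t ≤ c * r ^ n * ((Nat.centralBinom L : ℝ) / 4 ^ L) * mx ^ L := by
  have hy : 0 < r * xi := by positivity
  have hmx1 : 1 ≤ mx := by
    rcases le_total 1 (r * xi) with h | h
    · linarith
    · exact le_trans ((one_le_inv₀ hy).mpr h) h2
  have hmx : 0 < mx := by linarith
  unfold P
  split_ifs with h
  · rw [zero_mul]; positivity
  · set i := t + L - n with hi
    have hti : t = n - L + i := by omega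
    have e : c * ((Nat.choose (2 * L) i : ℝ) / 4 ^ L) * xi ^ i / xi ^ L * r ^ t =
        c * r ^ n * ((Nat.choose (2 * L) i : ℝ) / 4 ^ L) * ((r * xi) ^ i / (r * xi) ^ L) := by
      rw [hti, pow_add]
      have e2 : r ^ n = r ^ (n - L) * r ^ L := by rw [← pow_add]; congr 1; omega
      rw [e2, mul_pow, mul_pow]
      have : r ^ L ≠ 0 := by positivity
      have : xi ^ L ≠ 0 := by positivity
      field_simp
    rw [e]
    rcases Nat.lt_or_ge (2 * L) i with hi2 | hi2
    · rw [Nat.choose_eq_zero_of_lt hi2]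
      simp only [Nat.cast_zero, zero_div, mul_zero, zero_mul]
      positivity
    · have hch : (Nat.choose (2 * L) i : ℝ) ≤ (Nat.centralBinom L : ℝ) := by
        exact_mod_cast Nat.choose_le_centralBinom i L
      have hpw : (r * xi) ^ i / (r * xi) ^ L ≤ mx ^ L := by
        rcases le_total L i with hLi | hLi
        · have : (r * xi) ^ i / (r * xi) ^ L = (r * xi) ^ (i - L) := by
            rw [div_eq_iff (by positivity), ← pow_add]; congr 1; omega
          rw [this]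
          calc _ ≤ mx ^ (i - L) := by gcongr
            _ ≤ mx ^ L := pow_le_pow_right₀ hmx1 (by omega)
        · have : (r * xi) ^ i / (r * xi) ^ L = ((r * xi)⁻¹) ^ (L - i) := by
            rw [div_eq_iff (by positivity), inv_pow]
            have e3 : (r * xi) ^ L = (r * xi) ^ (L - i) * (r * xi) ^ i := by
              rw [← pow_add]; congr 1; omega
            rw [e3]
            have : (r * xi) ^ (L - i) ≠ 0 := by positivity
            field_simp
          rw [this]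
          calc _ ≤ mx ^ (L - i) := by gcongr
            _ ≤ mx ^ L := pow_le_pow_right₀ hmx1 (by omega)
      have : (0:ℝ) ≤ (r * xi) ^ i / (r * xi) ^ L := by positivity
      gcongr

theorem P_nonneg (c xi : ℝ) (n L t : ℕ) (hc : 0 ≤ c) (hxi : 0 < xi) : 0 ≤ P c n L xi t := by
  unfold P
  split_ifs with h
  · exact le_refl _
  · positivity

/-- the central binomial coefficient is small against `4 ^ L` -/
theorem central (L : ℕ) : (2 * L + 1 : ℝ) * (Nat.centralBinom L : ℝ) ^ 2 ≤ 16 ^ L := by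
  induction L with
  | zero => simp
  | succ n ih =>
    have h := Nat.succ_mul_centralBinom_succ n
    have h' : ((n:ℝ) + 1) * (Nat.centralBinom (n+1) : ℝ) = 2 * (2 * n + 1) * Nat.centralBinom n := by
      exact_mod_cast h
    have hn : (0:ℝ) < (n:ℝ) + 1 := by positivity
    have h2 : (Nat.centralBinom (n+1) : ℝ) = 2 * (2 * n + 1) * Nat.centralBinom n / ((n:ℝ)+1) := by
      field_simp
      linarith
    rw [h2]
    push_cast
    rw [div_pow, pow_succ (16:ℝ) n]
    have h3 : (2 * ((n:ℝ) + 1) + 1) * ((2 * (2 * n + 1) * Nat.centralBinom n) ^ 2 / ((n:ℝ) + 1) ^ 2) =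
        ((2 * (n:ℝ) + 3) * (2 * n + 1) * 4 / ((n:ℝ)+1)^2) * ((2 * n + 1) * (Nat.centralBinom n : ℝ) ^ 2) := by
      field_simp
      ring
    rw [h3]
    have h4 : (2 * (n:ℝ) + 3) * (2 * n + 1) * 4 / ((n:ℝ)+1)^2 ≤ 16 := by
      rw [div_le_iff₀ (by positivity)]
      nlinarith
    rw [mul_comm (16 ^ n) 16]
    gcongr

theorem central_tendsto : Tendsto (fun L : ℕ => (Nat.centralBinom L : ℝ) / 4 ^ L) atTop (𝓝 0) := by
  have h1 : ∀ L : ℕ, (Nat.centralBinom L : ℝ) / 4 ^ L ≤ (√(2 * L + 1 : ℝ))⁻¹ := by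
    intro L
    have h := central L
    have h2 : ((Nat.centralBinom L : ℝ) / 4 ^ L) ^ 2 ≤ (2 * L + 1 : ℝ)⁻¹ := by
      rw [div_pow, ← pow_mul, mul_comm L 2, pow_mul, div_le_iff₀ (by positivity)]
      rw [inv_mul_eq_div, le_div_iff₀ (by positivity)]
      norm_num
      linarith
    have h3 := Real.le_sqrt_of_sq_le h2
    rwa [Real.sqrt_inv] at h3
  refine squeeze_zero (fun L => by positivity) h1 ?_
  apply Tendsto.inv_tendsto_atTop
  apply Real.tendsto_sqrt_atTop.comp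
  apply tendsto_atTop_add_const_right
  exact Tendsto.const_mul_atTop (by norm_num) tendsto_natCast_atTop_atTop

theorem powdiff (g u : ℂ) (eta : ℝ) (h : ‖g - u‖ ≤ eta) (hu : ‖u‖ ≤ 1) (L : ℕ) :
    ‖g ^ L - u ^ L‖ ≤ (1 + eta) ^ L - 1 := by
  have he : 0 ≤ eta := le_trans (norm_nonneg _) h
  have hg : ‖g‖ ≤ 1 + eta := by
    calc ‖g‖ = ‖u + (g - u)‖ := by ring_nf
      _ ≤ ‖u‖ + ‖g - u‖ := norm_add_le _ _
      _ ≤ 1 + eta := by linarith
  induction L with
  | zero => simp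
  | succ n ih =>
    have e : g ^ (n+1) - u ^ (n+1) = g * (g ^ n - u ^ n) + (g - u) * u ^ n := by ring
    rw [e]
    have h3 : (0:ℝ) ≤ (1 + eta) ^ n - 1 := le_trans (norm_nonneg _) ih
    calc _ ≤ ‖g * (g ^ n - u ^ n)‖ + ‖(g - u) * u ^ n‖ := norm_add_le _ _
      _ ≤ (1 + eta) * ((1 + eta) ^ n - 1) + eta * 1 := by
          rw [norm_mul, norm_mul, norm_pow]
          gcongr
          exact pow_le_one₀ (norm_nonneg _) hu
      _ = _ := by ring

/-- a bump on the circle of radius `y` times the reference radius against the bump itself -/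
theorem gdiff (e : ℂ) (he : ‖e‖ = 1) (y : ℝ) (hy : 0 < y) :
    ‖(1 + y * e) ^ 2 / (4 * (y * e)) - (((1 + e.re) / 2 : ℝ) : ℂ)‖ ≤ (|y - 1| + |y⁻¹ - 1|) / 4 := by
  have he0 : e ≠ 0 := by
    intro h; rw [h] at he; simp at he
  have hy0 : (y : ℂ) ≠ 0 := by exact_mod_cast hy.ne'
  have hinv : e⁻¹ = (starRingEnd ℂ) e := by
    rw [Complex.inv_def, Complex.normSq_eq_norm_sq, he]; simp
  have hre : (((1 + e.re) / 2 : ℝ) : ℂ) = (2 + e + e⁻¹) / 4 := by
    rw [hinv]
    have := Complex.re_eq_add_conj e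
    push_cast
    rw [this]; ring
  have e1 : (1 + y * e) ^ 2 / (4 * (y * e)) - (((1 + e.re) / 2 : ℝ) : ℂ) =
      (((y - 1 : ℝ) : ℂ) * e + ((y⁻¹ - 1 : ℝ) : ℂ) * e⁻¹) / 4 := by
    rw [hre]
    push_cast
    field_simp
    ring
  rw [e1, norm_div]
  have h4 : ‖(4:ℂ)‖ = 4 := by simp
  rw [h4]
  gcongr
  refine (norm_add_le _ _).trans ?_
  rw [norm_mul, norm_mul, norm_inv, he, Complex.norm_real, Complex.norm_real]
  simp

/-- three points of the unit interval with sum `3/2` -/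
theorem three (u : Fin 3 → ℝ) (h0 : ∀ q, 0 ≤ u q) (h1 : ∀ q, u q ≤ 1) (hs : ∑ q, u q = 3 / 2)
    (L : ℕ) : ∑ q, u q ^ L ≤ 1 + 2 * (3 / 4) ^ L := by
  rw [Fin.sum_univ_three] at *
  have a0 := h0 0
  have a1 := h0 1
  have a2 := h0 2
  have p0 : u 0 ^ L ≤ 1 := pow_le_one₀ a0 (h1 0)
  have p1 : u 1 ^ L ≤ 1 := pow_le_one₀ a1 (h1 1)
  have p2 : u 2 ^ L ≤ 1 := pow_le_one₀ a2 (h1 2)
  have q0 : u 0 ≤ 3/4 → u 0 ^ L ≤ (3/4) ^ L := fun h => by gcongr
  have q1 : u 1 ≤ 3/4 → u 1 ^ L ≤ (3/4) ^ L := fun h => by gcongr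
  have q2 : u 2 ≤ 3/4 → u 2 ^ L ≤ (3/4) ^ L := fun h => by gcongr
  rcases le_total (u 0) (3/4) with b0 | b0
  · rcases le_total (u 1) (3/4) with b1 | b1
    · linarith [q0 b0, q1 b1]
    · have : u 2 ≤ 3/4 := by linarith
      linarith [q0 b0, q2 this]
  · have c1 : u 1 ≤ 3/4 := by linarith
    have c2 : u 2 ≤ 3/4 := by linarith
    linarith [q1 c1, q2 c2]

/-- one more power -/
theorem onemore (u : ℝ) (h0 : 0 ≤ u) (h1 : u ≤ 1) (L : ℕ) :
    u ^ L - u ^ (L + 1) ≤ 1 / (L + 1) := by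
  have h : ((L:ℝ) + 1) * (u ^ L * (1 - u)) ≤ 1 := by
    have hs : ∑ i ∈ Finset.range (L + 1), u ^ L * (1 - u) ≤
        ∑ i ∈ Finset.range (L + 1), u ^ i * (1 - u) := by
      apply Finset.sum_le_sum
      intro i hi
      have := Finset.mem_range.mp hi
      have h3 : u ^ L ≤ u ^ i := pow_le_pow_of_le_one h0 h1 (by omega)
      have : 0 ≤ 1 - u := by linarith
      gcongr
    rw [Finset.sum_const, Finset.card_range, nsmul_eq_mul, ← Finset.sum_mul,
      geom_sum_mul_neg] at hs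
    push_cast at hs
    have : 0 ≤ u ^ (L+1) := by positivity
    linarith
  rw [le_div_iff₀ (by positivity)]
  rw [pow_succ]
  nlinarith

end Pool.Agent.Helper33E
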