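import Pool.Agent.Helper33E.Bas

/-!
A monomial `c z ^ n` times `1 + ∑_q σ_q p_q (z / ρ)`, with three binomial bumps `p_q`.
-/

set_option autoImplicit false

open Filter Topology

namespace Pool.Agent.Helper33E

/-- third root of unity -/
noncomputable def om : ℂ := ⟨-1/2, √3/2⟩

/-- the three third roots of unity -/
noncomputable def E (q : Fin 3) : ℂ := om ^ (q : ℕ)

theorem om_norm : ‖om‖ = 1 := by
  have h : ‖om‖ ^ 2 = 1 := by
    rw [Complex.sq_norm, Complex.normSq_apply]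
    simp only [om]
    have := Real.mul_self_sqrt (by norm_num : (0:ℝ) ≤ 3)
    nlinarith
  have h0 := norm_nonneg om
  nlinarith

theorem om_ne : om ≠ 0 := by
  intro h; have := om_norm; rw [h] at this; simp at this

theorem E_norm (q : Fin 3) : ‖E q‖ = 1 := by rw [E, norm_pow, om_norm, one_pow]

theorem E_ne (q : Fin 3) : E q ≠ 0 := pow_ne_zero _ om_ne

theorem E_sum : ∑ q, E q = 0 := by
  rw [Fin.sum_univ_three]
  have h := Real.mul_self_sqrt (by norm_num : (0:ℝ) ≤ 3)
  apply Complex.ext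
  · simp [E, om, pow_two]
    nlinarith
  · simp [E, om, pow_two]
    ring

/-- weights of the bumps -/
noncomputable def sg (C : ℝ) (kap q : Fin 3) : ℝ := -1 + if q = kap then 1 / C else 0

/-- the coefficient array -/
noncomputable def blk (C : ℝ) (c : ℂ) (n L : ℕ) (rho : ℝ) (kap : Fin 3) (t : ℕ) : ℂ :=
  (if t = n then c else 0) + ∑ q : Fin 3, (sg C kap q : ℂ) * P c n L (E q / rho) t

/-- the bump -/
noncomputable def gg (rho : ℝ) (q : Fin 3) (z : ℂ) : ℂ :=
  (1 + z * (E q / rho)) ^ 2 / (4 * (z * (E q / rho)))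

/-- the value -/
noncomputable def val (C : ℝ) (c : ℂ) (n L : ℕ) (rho : ℝ) (kap : Fin 3) (z : ℂ) : ℂ :=
  c * z ^ n * (1 + ∑ q : Fin 3, (sg C kap q : ℂ) * gg rho q z ^ L)

theorem blk_hasSum (C : ℝ) (c : ℂ) (n L : ℕ) (rho : ℝ) (kap : Fin 3) (z : ℂ) (hz : z ≠ 0)
    (h : L ≤ n) : HasSum (fun t => blk C c n L rho kap t * z ^ t) (val C c n L rho kap z) := by
  have h1 : HasSum (fun t => (if t = n then c else 0) * z ^ t) (c * z ^ n) := by
    have := hasSum_single (f := fun t => (if t = n then c else 0) * z ^ t) n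
      (fun t ht => by simp [ht])
    simpa using this
  have h2 : ∀ q : Fin 3, HasSum (fun t => (sg C kap q : ℂ) * P c n L (E q / rho) t * z ^ t)
      ((sg C kap q : ℂ) * (c * z ^ n * gg rho q z ^ L)) := by
    intro q
    have := (P_hasSum c (E q / rho) z n L hz h).mul_left (sg C kap q : ℂ)
    simpa only [gg, mul_assoc] using this
  have h3 := h1.add (hasSum_sum (s := Finset.univ) (fun q _ => h2 q))
  have e : c * z ^ n + ∑ q : Fin 3, (sg C kap q : ℂ) * (c * z ^ n * gg rho q z ^ L) =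
      val C c n L rho kap z := by
    rw [val, mul_add, mul_one, Finset.mul_sum]
    congr 1
    apply Finset.sum_congr rfl
    intro q _
    ring
  rw [e] at h3
  have e2 : (fun t => blk C c n L rho kap t * z ^ t) = fun t => (if t = n then c else 0) * z ^ t +
      ∑ q : Fin 3, (sg C kap q : ℂ) * P c n L (E q / rho) t * z ^ t := by
    funext t
    rw [blk, add_mul, Finset.sum_mul]
  rw [e2]
  exact h3

/-- the constant -/
noncomputable def BB (C : ℝ) : ℝ := 4 + 3 / C

theorem sg_abs (C : ℝ) (hC : 0 < C) (kap q : Fin 3) : |sg C kap q| ≤ 1 + 1 / C := by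
  unfold sg
  have : 0 < 1 / C := by positivity
  split_ifs with h
  · rw [abs_le]; constructor <;> linarith
  · rw [add_zero, abs_neg, abs_one]; linarith

theorem sg_sum (C : ℝ) (hC : 0 < C) (kap : Fin 3) (v : Fin 3 → ℝ) (e : ℝ) (h0 : 0 ≤ e)
    (hv : ∀ q, v q ≤ e) : ∑ q : Fin 3, |sg C kap q| * v q ≤ (BB C - 1) * e := by
  have h1 : ∑ q : Fin 3, |sg C kap q| * v q ≤ ∑ q : Fin 3, (1 + 1 / C) * e := by
    apply Finset.sum_le_sum
    intro q _
    have := sg_abs C hC kap q
    have h2 := hv q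
    have h3 : 0 ≤ |sg C kap q| := abs_nonneg _
    have h4 : |sg C kap q| * v q ≤ |sg C kap q| * e := by gcongr
    have h5 : |sg C kap q| * e ≤ (1 + 1/C) * e := by gcongr
    linarith
  rw [Finset.sum_const, Finset.card_univ, Fintype.card_fin, nsmul_eq_mul] at h1
  have e2 : (BB C - 1) * e = ((3:ℕ):ℝ) * ((1 + 1/C) * e) := by
    unfold BB; push_cast; ring
  rw [e2]; exact h1

theorem bump_le (y mx : ℝ) (hy : 0 < y) (h1 : y ≤ mx) (h2 : y⁻¹ ≤ mx) :
    (1 + y) ^ 2 / (4 * y) ≤ mx := by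
  have e : (1 + y) ^ 2 / (4 * y) = (2 + y + y⁻¹) / 4 := by field_simp; ring
  rw [e]
  have hmx1 : 1 ≤ mx := by
    rcases le_total 1 y with h | h
    · linarith
    · exact le_trans ((one_le_inv₀ hy).mpr h) h2
  linarith

/-- absolute convergence and the bound of the sum of the moduli -/
theorem blk_abs (C : ℝ) (hC : 0 < C) (c : ℂ) (n L : ℕ) (rho r mx : ℝ) (kap : Fin 3)
    (hrho : 0 < rho) (hr : 0 < r) (h : L ≤ n) (h1 : r / rho ≤ mx) (h2 : (r / rho)⁻¹ ≤ mx) :
    Summable (fun t => ‖blk C c n L rho kap t‖ * r ^ t) ∧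
      ∑' t, ‖blk C c n L rho kap t‖ * r ^ t ≤ ‖c‖ * r ^ n * (BB C * mx ^ L) := by
  have hmx1 : 1 ≤ mx := by
    rcases le_total 1 (r / rho) with h | h
    · linarith
    · exact le_trans ((one_le_inv₀ (by positivity)).mpr h) h2
  set S : ℝ := ‖c‖ * r ^ n * ((1 + r * (1 / rho)) ^ 2 / (4 * (r * (1 / rho)))) ^ L with hS
  have hP : HasSum (fun t => P ‖c‖ n L (1 / rho) t * r ^ t) S := P_hasSum ‖c‖ (1 / rho) r n L hr.ne' h
  have hSle : S ≤ ‖c‖ * r ^ n * mx ^ L := by
    rw [hS]
    have e : r * (1 / rho) = r / rho := by ring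
    rw [e]
    have := bump_le (r / rho) mx (by positivity) h1 h2
    gcongr
  have h3 : HasSum (fun t => (if t = n then ‖c‖ else 0) * r ^ t +
      ∑ q : Fin 3, |sg C kap q| * (P ‖c‖ n L (1 / rho) t * r ^ t))
      (‖c‖ * r ^ n + ∑ q : Fin 3, |sg C kap q| * S) := by
    apply HasSum.add
    · have := hasSum_single (f := fun t => (if t = n then ‖c‖ else 0) * r ^ t) n
        (fun t ht => by simp [ht])
      simpa using this
    · exact hasSum_sum (fun q _ => hP.mul_left _)
  have h4 : ∀ t, ‖blk C c n L rho kap t‖ * r ^ t ≤ (if t = n then ‖c‖ else 0) * r ^ t +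
      ∑ q : Fin 3, |sg C kap q| * (P ‖c‖ n L (1 / rho) t * r ^ t) := by
    intro t
    have h5 : ‖blk C c n L rho kap t‖ ≤ (if t = n then ‖c‖ else 0) +
        ∑ q : Fin 3, |sg C kap q| * P ‖c‖ n L (1 / rho) t := by
      unfold blk
      refine (norm_add_le _ _).trans ?_
      gcongr
      · split_ifs <;> simp
      · refine (norm_sum_le _ _).trans ?_
        apply le_of_eq
        apply Finset.sum_congr rfl
        intro q _
        rw [norm_mul, P_norm, norm_div, E_norm, Complex.norm_real, Complex.norm_real,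
          Real.norm_eq_abs, Real.norm_eq_abs, abs_of_pos hrho]
    calc _ ≤ ((if t = n then ‖c‖ else 0) + ∑ q : Fin 3, |sg C kap q| * P ‖c‖ n L (1 / rho) t) * r ^ t := by
          gcongr
      _ = _ := by
          rw [add_mul, Finset.sum_mul]
          congr 1
          apply Finset.sum_congr rfl
          intro q _; ring
  have hs := Summable.of_nonneg_of_le (fun t => by positivity) h4 h3.summable
  refine ⟨hs, ?_⟩
  have h6 := hs.tsum_le_tsum h4 h3.summable
  rw [h3.tsum_eq] at h6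
  have h7 := sg_sum C hC kap (fun _ => S) (‖c‖ * r ^ n * mx ^ L) (by positivity) (fun _ => hSle)
  have h8 : ‖c‖ * r ^ n ≤ ‖c‖ * r ^ n * mx ^ L := by
    have : (1:ℝ) ≤ mx ^ L := one_le_pow₀ hmx1
    have h0 : 0 ≤ ‖c‖ * r ^ n := by positivity
    nlinarith
  calc _ ≤ _ := h6
    _ ≤ ‖c‖ * r ^ n * mx ^ L + (BB C - 1) * (‖c‖ * r ^ n * mx ^ L) := by
        gcongr
    _ = _ := by ring

/-- coefficients other than the central one are small -/
theorem blk_coeff (C : ℝ) (hC : 0 < C) (c : ℂ) (n L : ℕ) (rho r mx : ℝ) (kap : Fin 3) (t : ℕ)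
    (hrho : 0 < rho) (hr : 0 < r) (h : L ≤ n) (h1 : r / rho ≤ mx) (h2 : (r / rho)⁻¹ ≤ mx) :
    ‖blk C c n L rho kap t - if t = n then c else 0‖ * r ^ t ≤
      ‖c‖ * r ^ n * (BB C * (((Nat.centralBinom L : ℝ) / 4 ^ L) * mx ^ L)) := by
  have hmx1 : 1 ≤ mx := by
    rcases le_total 1 (r / rho) with h | h
    · linarith
    · exact le_trans ((one_le_inv₀ (by positivity)).mpr h) h2
  have e : blk C c n L rho kap t - (if t = n then c else 0) =
      ∑ q : Fin 3, (sg C kap q : ℂ) * P c n L (E q / rho) t := by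
    unfold blk; ring
  rw [e]
  have h3 : ‖∑ q : Fin 3, (sg C kap q : ℂ) * P c n L (E q / rho) t‖ * r ^ t ≤
      ∑ q : Fin 3, |sg C kap q| * (P ‖c‖ n L (1 / rho) t * r ^ t) := by
    calc _ ≤ (∑ q : Fin 3, ‖(sg C kap q : ℂ) * P c n L (E q / rho) t‖) * r ^ t := by
          gcongr
          exact norm_sum_le _ _
      _ = _ := by
          rw [Finset.sum_mul]
          apply Finset.sum_congr rfl
          intro q _
          rw [norm_mul, P_norm, norm_div, E_norm, Complex.norm_real, Complex.norm_real,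
            Real.norm_eq_abs, Real.norm_eq_abs, abs_of_pos hrho]
          ring
  have h4 : P ‖c‖ n L (1 / rho) t * r ^ t ≤
      ‖c‖ * r ^ n * ((Nat.centralBinom L : ℝ) / 4 ^ L) * mx ^ L := by
    apply P_le _ _ _ _ _ _ (norm_nonneg _) (by positivity) hr mx _ _ h
    · rw [mul_one_div]; exact h1
    · rw [mul_one_div]; exact h2
  have h5 := sg_sum C hC kap (fun _ => P ‖c‖ n L (1 / rho) t * r ^ t)
    (‖c‖ * r ^ n * ((Nat.centralBinom L : ℝ) / 4 ^ L) * mx ^ L) (by positivity) (fun _ => h4)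
  have h6 : (0:ℝ) ≤ ‖c‖ * r ^ n * ((Nat.centralBinom L : ℝ) / 4 ^ L) * mx ^ L := by positivity
  calc _ ≤ _ := h3
    _ ≤ _ := h5
    _ ≤ BB C * (‖c‖ * r ^ n * ((Nat.centralBinom L : ℝ) / 4 ^ L) * mx ^ L) := by nlinarith
    _ = _ := by ring

end Pool.Agent.Helper33E
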