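import Pool.Agent.Helper33E.Fin

/-!
The maximum term in a window, and the limits of the errors.
-/

set_option autoImplicit false

open Filter Topology

namespace Pool.Agent.Helper33E

/-- size of the side coefficients of a bump -/
noncomputable def be (L : ℕ) : ℝ := (Nat.centralBinom L : ℝ) / 4 ^ L

/-- the main coefficients of the window -/
noncomputable def II (m t : ℕ) : ℂ :=
  (if t = nu m then cc m else 0) + (if t = nu m + N m then c1 m else 0) +
  (if t = nu (m + 1) then cc (m + 1) else 0) +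
  (if t = nu (m + 1) + N (m + 1) then c1 (m + 1) else 0)

/-- error -/
noncomputable def er1 (C : ℝ) (m : ℕ) : ℝ :=
  90 * BB C * (9/10) ^ m + 2 * BB C * (1 + eta m) * (be (LL m) + be (LL (m + 1)))

theorem small_next (m : ℕ) (hm : 1 ≤ m) (r : ℝ) (hr : 0 < r) (h2 : r ≤ (m:ℝ) + 3/2) :
    al * ww (m + 1) r * tt (m + 1) r ≤ mu m r := by
  have hm3 : tt (m + 1) r ≤ mu m r := (le_max_right _ _).trans (le_max_right _ _)
  have hw := ww_high m (m+1) (by omega) r hr h2
  have h3 : (2/3 : ℝ) ^ (m + 1 + 1) ≤ (2/3) ^ 3 :=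
    pow_le_pow_of_le_one (by norm_num) (by norm_num) (by omega)
  have hal := al_le
  have hal0 := al_pos.le
  have hw0 := (ww_pos (m+1) r hr).le
  have h4 : al * ww (m + 1) r ≤ 1 := by
    have : (2/3 : ℝ) ^ 3 ≤ 1/2 := by norm_num
    nlinarith
  have ht := (tt_pos (m+1) r hr).le
  nlinarith

theorem aa_close (C : ℝ) (hC : 0 < C) (m : ℕ) (hm : 1 ≤ m) (r : ℝ)
    (h1 : (m:ℝ) + 1/2 ≤ r) (h2 : r ≤ (m:ℝ) + 3/2) (t : ℕ) :
    ‖aa C t - II m t‖ * r ^ t ≤ er1 C m * mu m r := by
  have hm0 : (1:ℝ) ≤ m := by exact_mod_cast hm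
  have hr : 0 < r := by linarith
  have hB := BB_pos C hC
  have hm1 : tt m r ≤ mu m r := le_max_left _ _
  have hm2 : al * ww m r * tt m r ≤ mu m r := (le_max_left _ _).trans (le_max_right _ _)
  have hm3 : tt (m + 1) r ≤ mu m r := (le_max_right _ _).trans (le_max_right _ _)
  have hm4 := small_next m hm r hr h2
  have a1 := two_blocks C hC (fun k => bb C k t * (r:ℂ) ^ t) m r h1 h2 (by
    intro k
    have h := bb_abs C hC k r hr
    have h3 : ‖bb C k t * (r:ℂ) ^ t‖ = ‖bb C k t‖ * r ^ t := by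
      rw [norm_mul, norm_pow, Complex.norm_real, Real.norm_eq_abs, abs_of_pos hr]
    rw [h3]
    exact (h.1.le_tsum t (fun j _ => by positivity)).trans h.2)
  have e1 : (∑' k, bb C k t * (r:ℂ) ^ t) - bb C m t * (r:ℂ) ^ t - bb C (m+1) t * (r:ℂ) ^ t =
      (aa C t - bb C m t - bb C (m+1) t) * (r:ℂ) ^ t := by
    rw [tsum_mul_right]; unfold aa; ring
  have hnr : ‖(r:ℂ) ^ t‖ = r ^ t := by
    rw [norm_pow, Complex.norm_real, Real.norm_eq_abs, abs_of_pos hr]
  rw [e1, norm_mul, hnr] at a1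
  have b1 := blk_coeff C hC (cc m) (nu m) (LL m) (R m) r (mx m r) (kap m) t (R_pos m) hr (LL_nu m)
    (le_max_left _ _) (le_max_right _ _)
  have b2 := blk_coeff C hC (c1 m) (nu m + N m) (LL m) (R m) r (mx m r) 2 t (R_pos m) hr
    (by have := LL_nu m; omega) (le_max_left _ _) (le_max_right _ _)
  have b3 := blk_coeff C hC (cc (m+1)) (nu (m+1)) (LL (m+1)) (R (m+1)) r (mx (m+1) r) (kap (m+1)) t
    (R_pos (m+1)) hr (LL_nu (m+1)) (le_max_left _ _) (le_max_right _ _)
  have b4 := blk_coeff C hC (c1 (m+1)) (nu (m+1) + N (m+1)) (LL (m+1)) (R (m+1)) r (mx (m+1) r) 2 t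
    (R_pos (m+1)) hr (by have := LL_nu (m+1); omega) (le_max_left _ _) (le_max_right _ _)
  rw [c1_norm] at b2 b4
  have hx1 := mx_le m m hm (Or.inl rfl) r h1 h2
  have hx2 := mx_le m (m+1) hm (Or.inr rfl) r h1 h2
  have hbe1 : 0 ≤ be (LL m) := by unfold be; positivity
  have hbe2 : 0 ≤ be (LL (m+1)) := by unfold be; positivity
  have het := eta_nonneg m
  have hp : ∀ (x y c : ℝ), x ≤ mu m r → y ≤ 1 + eta m → 0 ≤ x → 0 ≤ c → 0 ≤ y →
      x * (BB C * (c * y)) ≤ mu m r * (BB C * (c * (1 + eta m))) := by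
    intro x y c hx hy hx0 hc hy0
    have : 0 ≤ mu m r := hx0.trans hx
    gcongr
  have hmx0 : ∀ k, 0 ≤ mx k r ^ LL k := by
    intro k
    have := R_pos k
    exact pow_nonneg (le_trans (show 0 ≤ r / R k by positivity) (le_max_left _ _)) _
  have ht := (tt_pos m r hr).le
  have hw := (ww_pos m r hr).le
  have ht' := (tt_pos (m+1) r hr).le
  have hw' := (ww_pos (m+1) r hr).le
  have hal0 := al_pos.le
  have d1 := hp (tt m r) (mx m r ^ LL m) (be (LL m)) hm1 hx1 ht hbe1 (hmx0 m)
  have d2 := hp (al * ww m r * tt m r) (mx m r ^ LL m) (be (LL m)) hm2 hx1 (by positivity) hbe1 (hmx0 m)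
  have d3 := hp (tt (m+1) r) (mx (m+1) r ^ LL (m+1)) (be (LL (m+1))) hm3 hx2 ht' hbe2 (hmx0 (m+1))
  have d4 := hp (al * ww (m+1) r * tt (m+1) r) (mx (m+1) r ^ LL (m+1)) (be (LL (m+1))) hm4 hx2
    (by positivity) hbe2 (hmx0 (m+1))
  unfold be at d1 d2 d3 d4
  have c1' := b1.trans d1
  have c2' := b2.trans d2
  have c3' := b3.trans d3
  have c4' := b4.trans d4
  have e : aa C t - II m t = (aa C t - bb C m t - bb C (m+1) t) +
      (blk C (cc m) (nu m) (LL m) (R m) (kap m) t - (if t = nu m then cc m else 0)) +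
      (blk C (c1 m) (nu m + N m) (LL m) (R m) 2 t - (if t = nu m + N m then c1 m else 0)) +
      (blk C (cc (m+1)) (nu (m+1)) (LL (m+1)) (R (m+1)) (kap (m+1)) t -
        (if t = nu (m+1) then cc (m+1) else 0)) +
      (blk C (c1 (m+1)) (nu (m+1) + N (m+1)) (LL (m+1)) (R (m+1)) 2 t -
        (if t = nu (m+1) + N (m+1) then c1 (m+1) else 0)) := by
    unfold II bb; ring
  have tri : ∀ a b c d e : ℂ, ‖a + b + c + d + e‖ ≤ ‖a‖ + ‖b‖ + ‖c‖ + ‖d‖ + ‖e‖ := by
    intro a b c d e
    have t1 := norm_add_le (a + b + c + d) e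
    have t2 := norm_add_le (a + b + c) d
    have t3 := norm_add_le (a + b) c
    have t4 := norm_add_le a b
    linarith
  rw [e]
  have hrt : 0 ≤ r ^ t := by positivity
  refine (mul_le_mul_of_nonneg_right (tri _ _ _ _ _) hrt).trans ?_
  have e2 : er1 C m * mu m r = 90 * BB C * (9/10) ^ m * mu m r +
      mu m r * (BB C * ((Nat.centralBinom (LL m) : ℝ) / 4 ^ LL m * (1 + eta m))) +
      mu m r * (BB C * ((Nat.centralBinom (LL m) : ℝ) / 4 ^ LL m * (1 + eta m))) +
      mu m r * (BB C * ((Nat.centralBinom (LL (m+1)) : ℝ) / 4 ^ LL (m+1) * (1 + eta m))) +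
      mu m r * (BB C * ((Nat.centralBinom (LL (m+1)) : ℝ) / 4 ^ LL (m+1) * (1 + eta m))) := by
    unfold er1 be; ring
  rw [e2]
  simp only [add_mul] at *
  linarith

theorem N_pos (m : ℕ) : 0 < N m := by unfold N; positivity

theorem II_le (m : ℕ) (hm : 1 ≤ m) (r : ℝ) (hr : 0 < r) (h2 : r ≤ (m:ℝ) + 3/2) (t : ℕ) :
    ‖II m t‖ * r ^ t ≤ mu m r := by
  have hm1 : tt m r ≤ mu m r := le_max_left _ _
  have hm2 : al * ww m r * tt m r ≤ mu m r := (le_max_left _ _).trans (le_max_right _ _)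
  have hm3 : tt (m + 1) r ≤ mu m r := (le_max_right _ _).trans (le_max_right _ _)
  have hm4 := small_next m hm r hr h2
  have hmu : 0 < mu m r := (tt_pos m r hr).trans_le hm1
  have e : nu (m + 1) = nu m + 2 * N m := rfl
  have hN := N_pos m
  have hN' := N_pos (m + 1)
  unfold II
  by_cases a1 : t = nu m
  · have b2 : ¬ t = nu m + N m := by omega
    have b3 : ¬ t = nu (m+1) := by omega
    have b4 : ¬ t = nu (m+1) + N (m+1) := by omega
    rw [if_pos a1, if_neg b2, if_neg b3, if_neg b4, a1]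
    simp only [add_zero]
    exact hm1
  · by_cases a2 : t = nu m + N m
    · have b3 : ¬ t = nu (m+1) := by omega
      have b4 : ¬ t = nu (m+1) + N (m+1) := by omega
      rw [if_neg a1, if_pos a2, if_neg b3, if_neg b4, a2]
      simp only [add_zero, zero_add]
      rw [c1_norm]; exact hm2
    · by_cases a3 : t = nu (m+1)
      · have b4 : ¬ t = nu (m+1) + N (m+1) := by omega
        rw [if_neg a1, if_neg a2, if_pos a3, if_neg b4, a3]
        simp only [add_zero, zero_add]
        exact hm3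
      · by_cases a4 : t = nu (m+1) + N (m+1)
        · rw [if_neg a1, if_neg a2, if_neg a3, if_pos a4, a4]
          simp only [zero_add]
          rw [c1_norm]; exact hm4
        · rw [if_neg a1, if_neg a2, if_neg a3, if_neg a4]
          simp; exact hmu.le

theorem II_max (m : ℕ) (r : ℝ) : ∃ t, m ≤ t ∧ ‖II m t‖ * r ^ t = mu m r := by
  have e : nu (m + 1) = nu m + 2 * N m := rfl
  have hN := N_pos m
  have hN' := N_pos (m + 1)
  have hn := nu_ge m
  have hcase : mu m r = tt m r ∨ mu m r = al * ww m r * tt m r ∨ mu m r = tt (m + 1) r := by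
    unfold mu
    rcases max_choice (tt m r) (max (al * ww m r * tt m r) (tt (m + 1) r)) with h | h
    · left; exact h
    · rcases max_choice (al * ww m r * tt m r) (tt (m + 1) r) with h' | h'
      · right; left; rw [h, h']
      · right; right; rw [h, h']
  rcases hcase with h | h | h
  · refine ⟨nu m, by omega, ?_⟩
    have b2 : ¬ nu m = nu m + N m := by omega
    have b3 : ¬ nu m = nu (m+1) := by omega
    have b4 : ¬ nu m = nu (m+1) + N (m+1) := by omega
    unfold II
    rw [if_pos rfl, if_neg b2, if_neg b3, if_neg b4, h]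
    simp only [add_zero]; rfl
  · refine ⟨nu m + N m, by omega, ?_⟩
    have b1 : ¬ nu m + N m = nu m := by omega
    have b3 : ¬ nu m + N m = nu (m+1) := by omega
    have b4 : ¬ nu m + N m = nu (m+1) + N (m+1) := by omega
    unfold II
    rw [if_neg b1, if_pos rfl, if_neg b3, if_neg b4, h]
    simp only [add_zero, zero_add]
    rw [c1_norm]
  · refine ⟨nu (m+1), by omega, ?_⟩
    have b1 : ¬ nu (m+1) = nu m := by omega
    have b2 : ¬ nu (m+1) = nu m + N m := by omega
    have b4 : ¬ nu (m+1) = nu (m+1) + N (m+1) := by omega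
    unfold II
    rw [if_neg b1, if_neg b2, if_pos rfl, if_neg b4, h]
    simp only [add_zero, zero_add]; rfl

theorem LL_tendsto : Tendsto LL atTop atTop := by
  rw [tendsto_atTop]
  intro b
  filter_upwards [eventually_ge_atTop (b * b)] with m hm
  exact Nat.le_sqrt.mpr hm

theorem eta_tendsto : Tendsto eta atTop (𝓝 0) := by
  have h1 : ∀ m : ℕ, eta m ≤ Real.exp (4 * (√((m:ℝ) + 1))⁻¹) - 1 := by
    intro m
    unfold eta
    have hs : 0 < √((m:ℝ) + 1) := Real.sqrt_pos.mpr (by positivity)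
    have h2 : (1 + 4 / ((m:ℝ) + 1)) ^ LL (m + 1) ≤ Real.exp (4 * (√((m:ℝ) + 1))⁻¹) := by
      calc _ ≤ (Real.exp (4 / ((m:ℝ) + 1))) ^ LL (m + 1) := by
            have := Real.add_one_le_exp (4 / ((m:ℝ) + 1))
            have h0 : 0 ≤ 1 + 4 / ((m:ℝ) + 1) := by positivity
            exact pow_le_pow_left₀ h0 (by linarith) _
        _ = Real.exp (LL (m + 1) * (4 / ((m:ℝ) + 1))) := by rw [← Real.exp_nat_mul]
        _ ≤ _ := by
            apply Real.exp_le_exp.mpr
            have h3 : (LL (m + 1) : ℝ) ≤ √((m:ℝ) + 1) := by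
              have := Real.nat_sqrt_le_real_sqrt (a := m + 1)
              push_cast at this
              exact this
            have h4 : (√((m:ℝ) + 1))⁻¹ = √((m:ℝ) + 1) / ((m:ℝ) + 1) := by
              rw [eq_div_iff (by positivity)]
              have := Real.mul_self_sqrt (show (0:ℝ) ≤ (m:ℝ) + 1 by positivity)
              rw [inv_mul_eq_div, div_eq_iff hs.ne']
              exact this.symm
            rw [h4]
            have : (LL (m + 1) : ℝ) * (4 / ((m:ℝ) + 1)) ≤ √((m:ℝ) + 1) * (4 / ((m:ℝ) + 1)) := by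
              gcongr
            refine this.trans (le_of_eq ?_)
            ring
    linarith
  refine squeeze_zero eta_nonneg h1 ?_
  have h5 : Tendsto (fun m : ℕ => √((m:ℝ) + 1)) atTop atTop := by
    apply Real.tendsto_sqrt_atTop.comp
    exact tendsto_atTop_add_const_right _ _ tendsto_natCast_atTop_atTop
  have h6 : Tendsto (fun m : ℕ => 4 * (√((m:ℝ) + 1))⁻¹) atTop (𝓝 (4 * 0)) :=
    (h5.inv_tendsto_atTop).const_mul 4
  have h7 := (Real.continuous_exp.tendsto (4 * 0)).comp h6
  have h8 := h7.sub_const 1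
  simpa using h8

theorem be_tendsto : Tendsto (fun m => be (LL m)) atTop (𝓝 0) :=
  central_tendsto.comp LL_tendsto

theorem be_tendsto' : Tendsto (fun m => be (LL (m + 1))) atTop (𝓝 0) :=
  central_tendsto.comp (LL_tendsto.comp (tendsto_add_atTop_nat 1))

theorem e1_tendsto : Tendsto e1 atTop (𝓝 0) := by
  have h1 : Tendsto (fun m : ℕ => 1 / ((LL m : ℝ) + 1)) atTop (𝓝 0) :=
    tendsto_one_div_add_atTop_nhds_zero_nat.comp LL_tendsto
  have := eta_tendsto.add h1
  have e : e1 = fun m : ℕ => eta m + 1 / ((LL m : ℝ) + 1) := rfl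
  rw [e]
  simpa using this

/-- total error -/
noncomputable def er (C : ℝ) (m : ℕ) : ℝ := er0 C m + er1 C m + 4 / C * (3/4) ^ LL m

theorem er_tendsto (C : ℝ) : Tendsto (er C) atTop (𝓝 0) := by
  have p1 : Tendsto (fun m : ℕ => (9/10 : ℝ) ^ m) atTop (𝓝 0) :=
    tendsto_pow_atTop_nhds_zero_of_lt_one (by norm_num) (by norm_num)
  have p2 : Tendsto (fun m : ℕ => (2/3 : ℝ) ^ (m + 2)) atTop (𝓝 0) :=
    (tendsto_pow_atTop_nhds_zero_of_lt_one (by norm_num) (by norm_num)).comp (tendsto_add_atTop_nat 2)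
  have p3 : Tendsto (fun m : ℕ => (3/4 : ℝ) ^ LL m) atTop (𝓝 0) :=
    (tendsto_pow_atTop_nhds_zero_of_lt_one (by norm_num) (by norm_num)).comp LL_tendsto
  have h0 : Tendsto (er0 C) atTop (𝓝 0) := by
    have := ((e1_tendsto.const_mul (3 * BB C)).add
      (((p2.const_mul 2).mul ((eta_tendsto.const_add 1).const_mul (BB C))))).add
      (p1.const_mul (90 * BB C))
    have e : er0 C = fun m : ℕ => 3 * BB C * e1 m +
      2 * (2/3) ^ (m + 2) * (BB C * (1 + eta m)) + 90 * BB C * (9/10) ^ m := rfl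
    rw [e]
    simpa using this
  have h1 : Tendsto (er1 C) atTop (𝓝 0) := by
    have := (p1.const_mul (90 * BB C)).add
      (((eta_tendsto.const_add 1).const_mul (2 * BB C)).mul (be_tendsto.add be_tendsto'))
    have e : er1 C = fun m : ℕ => 90 * BB C * (9/10) ^ m +
      2 * BB C * (1 + eta m) * (be (LL m) + be (LL (m + 1))) := rfl
    rw [e]
    simpa using this
  have h2 := (h0.add h1).add (p3.const_mul (4 / C))
  have e : er C = fun m : ℕ => er0 C m + er1 C m + 4 / C * (3/4) ^ LL m := rfl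
  rw [e]
  simpa using h2

end Pool.Agent.Helper33E
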