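import Pool.Agent.Helper33E.Act

/-!
Two-sided bounds of the maximum modulus and of the maximum term in a window.
-/

set_option autoImplicit false

open Filter Topology

namespace Pool.Agent.Helper33E

theorem val_le (C : ℝ) (hC : 0 < C) (c : ℂ) (n k : ℕ) (ka : Fin 3) (z : ℂ) (hz : z ≠ 0)
    (h : LL k ≤ n) : ‖val C c n (LL k) (R k) ka z‖ ≤ ‖c‖ * ‖z‖ ^ n * (BB C * mx k ‖z‖ ^ LL k) := by
  have hr : 0 < ‖z‖ := norm_pos_iff.mpr hz
  have h1 := blk_hasSum C c n (LL k) (R k) ka z hz h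
  have h2 := blk_abs C hC c n (LL k) (R k) ‖z‖ (mx k ‖z‖) ka (R_pos k) hr h
    (le_max_left _ _) (le_max_right _ _)
  rw [← h1.tsum_eq]
  have e : ∀ t, ‖blk C c n (LL k) (R k) ka t * z ^ t‖ =
      ‖blk C c n (LL k) (R k) ka t‖ * ‖z‖ ^ t := fun t => by rw [norm_mul, norm_pow]
  have h3 : Summable (fun t => ‖blk C c n (LL k) (R k) ka t * z ^ t‖) := h2.1.congr (fun t => (e t).symm)
  refine (norm_tsum_le_tsum_norm h3).trans ?_
  rw [tsum_congr e]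
  exact h2.2

theorem AA_le (C : ℝ) (hC : 0 < C) (k : ℕ) (z : ℂ) (hz : z ≠ 0) : ‖AA C k z‖ ≤ BB C * D k ‖z‖ := by
  have h1 := val_le C hC (cc k) (nu k) k (kap k) z hz (LL_nu k)
  have h2 := val_le C hC (c1 k) (nu k + N k) k 2 z hz (by have := LL_nu k; omega)
  rw [c1_norm] at h2
  have e : ‖cc k‖ * ‖z‖ ^ nu k = tt k ‖z‖ := rfl
  rw [e] at h1
  have hr : 0 < ‖z‖ := norm_pos_iff.mpr hz
  have hmx : 0 ≤ mx k ‖z‖ ^ LL k :=
    pow_nonneg (le_trans (show 0 ≤ ‖z‖ / R k by have := R_pos k; positivity) (le_max_left _ _)) _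
  have hB := (BB_pos C hC).le
  have ht := (tt_pos k ‖z‖ hr).le
  have hw := (ww_pos k ‖z‖ hr).le
  have h22 : al * ww k ‖z‖ * tt k ‖z‖ * (BB C * mx k ‖z‖ ^ LL k) ≤
      2 * ww k ‖z‖ * tt k ‖z‖ * (BB C * mx k ‖z‖ ^ LL k) := by
    have := al_le
    gcongr
  unfold AA
  calc _ ≤ _ := norm_add_le _ _
    _ ≤ _ := add_le_add h1 (h2.trans h22)
    _ = _ := by unfold D; ring

/-- what matters in the window -/
noncomputable def WW (C : ℝ) (m : ℕ) (z : ℂ) : ℂ :=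
  cc m * z ^ nu m * ((1 - SS m z + uu (kap m) z ^ LL m / C : ℝ) : ℂ) +
  c1 m * z ^ (nu m + N m) * ((1 - SS m z + uu 2 z ^ LL m / C : ℝ) : ℂ) +
  cc (m + 1) * z ^ nu (m + 1) * ((1 - SS m z + uu (kap (m + 1)) z ^ LL m / C : ℝ) : ℂ)

/-- error -/
noncomputable def er0 (C : ℝ) (m : ℕ) : ℝ :=
  3 * BB C * e1 m + 2 * (2/3) ^ (m + 2) * (BB C * (1 + eta m)) + 90 * BB C * (9/10) ^ m

theorem f_close (C : ℝ) (hC : 0 < C) (m : ℕ) (hm : 1 ≤ m) (z : ℂ)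
    (h1 : (m:ℝ) + 1/2 ≤ ‖z‖) (h2 : ‖z‖ ≤ (m:ℝ) + 3/2) :
    ‖(∑' k, AA C k z) - WW C m z‖ ≤ er0 C m * mu m ‖z‖ := by
  have hm0 : (1:ℝ) ≤ m := by exact_mod_cast hm
  have hr : 0 < ‖z‖ := by linarith
  have hz : z ≠ 0 := norm_pos_iff.mp hr
  have hB := BB_pos C hC
  have he := e1_nonneg m
  have hm1 : tt m ‖z‖ ≤ mu m ‖z‖ := le_max_left _ _
  have hm2 : al * ww m ‖z‖ * tt m ‖z‖ ≤ mu m ‖z‖ := (le_max_left _ _).trans (le_max_right _ _)
  have hm3 : tt (m + 1) ‖z‖ ≤ mu m ‖z‖ := (le_max_right _ _).trans (le_max_right _ _)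
  have a1 := two_blocks C hC (fun k => AA C k z) m ‖z‖ h1 h2 (fun k => AA_le C hC k z hz)
  have a2 := val_close C hC (cc m) (nu m) m m hm (Or.inl rfl) z h1 h2 (kap m)
  have a3 := val_close C hC (c1 m) (nu m + N m) m m hm (Or.inl rfl) z h1 h2 2
  have a4 := val_close C hC (cc (m+1)) (nu (m+1)) m (m+1) hm (Or.inr rfl) z h1 h2 (kap (m+1))
  have a5 := val_le C hC (c1 (m+1)) (nu (m+1) + N (m+1)) (m+1) 2 z hz
    (by have := LL_nu (m+1); omega)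
  rw [c1_norm] at a3 a5
  have hmx := mx_le m (m+1) hm (Or.inr rfl) ‖z‖ h1 h2
  have hw := ww_high m (m+1) (by omega) ‖z‖ hr h2
  have ht := (tt_pos (m+1) ‖z‖ hr).le
  have hw0 := (ww_pos (m+1) ‖z‖ hr).le
  have hBe : 0 ≤ BB C * e1 m := by positivity
  have b2 : ‖cc m‖ * ‖z‖ ^ nu m * (BB C * e1 m) ≤ mu m ‖z‖ * (BB C * e1 m) :=
    mul_le_mul_of_nonneg_right hm1 hBe
  have b3 : al * ww m ‖z‖ * tt m ‖z‖ * (BB C * e1 m) ≤ mu m ‖z‖ * (BB C * e1 m) :=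
    mul_le_mul_of_nonneg_right hm2 hBe
  have b4 : ‖cc (m+1)‖ * ‖z‖ ^ nu (m+1) * (BB C * e1 m) ≤ mu m ‖z‖ * (BB C * e1 m) :=
    mul_le_mul_of_nonneg_right hm3 hBe
  have b5 : al * ww (m+1) ‖z‖ * tt (m+1) ‖z‖ * (BB C * mx (m+1) ‖z‖ ^ LL (m+1)) ≤
      2 * (2/3) ^ (m + 2) * mu m ‖z‖ * (BB C * (1 + eta m)) := by
    have := eta_nonneg m
    have hmx0 : 0 ≤ mx (m+1) ‖z‖ := by
      have := R_pos (m+1)
      exact le_trans (show 0 ≤ ‖z‖ / R (m+1) by positivity) (le_max_left _ _)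
    have hmu : 0 ≤ mu m ‖z‖ := ht.trans hm3
    have hal := al_le
    have hal0 := al_pos.le
    gcongr
  have e : (∑' k, AA C k z) - WW C m z =
      ((∑' k, AA C k z) - AA C m z - AA C (m+1) z) +
      (val C (cc m) (nu m) (LL m) (R m) (kap m) z -
        cc m * z ^ nu m * ((1 - SS m z + uu (kap m) z ^ LL m / C : ℝ) : ℂ)) +
      (val C (c1 m) (nu m + N m) (LL m) (R m) 2 z -
        c1 m * z ^ (nu m + N m) * ((1 - SS m z + uu 2 z ^ LL m / C : ℝ) : ℂ)) +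
      (val C (cc (m+1)) (nu (m+1)) (LL (m+1)) (R (m+1)) (kap (m+1)) z -
        cc (m + 1) * z ^ nu (m + 1) * ((1 - SS m z + uu (kap (m + 1)) z ^ LL m / C : ℝ) : ℂ)) +
      val C (c1 (m+1)) (nu (m+1) + N (m+1)) (LL (m+1)) (R (m+1)) 2 z := by
    unfold WW AA
    ring
  rw [e]
  have t1 := norm_add_le (((∑' k, AA C k z) - AA C m z - AA C (m+1) z) +
      (val C (cc m) (nu m) (LL m) (R m) (kap m) z -
        cc m * z ^ nu m * ((1 - SS m z + uu (kap m) z ^ LL m / C : ℝ) : ℂ)) +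
      (val C (c1 m) (nu m + N m) (LL m) (R m) 2 z -
        c1 m * z ^ (nu m + N m) * ((1 - SS m z + uu 2 z ^ LL m / C : ℝ) : ℂ)) +
      (val C (cc (m+1)) (nu (m+1)) (LL (m+1)) (R (m+1)) (kap (m+1)) z -
        cc (m + 1) * z ^ nu (m + 1) * ((1 - SS m z + uu (kap (m + 1)) z ^ LL m / C : ℝ) : ℂ)))
      (val C (c1 (m+1)) (nu (m+1) + N (m+1)) (LL (m+1)) (R (m+1)) 2 z)
  have t2 := norm_add_le (((∑' k, AA C k z) - AA C m z - AA C (m+1) z) +
      (val C (cc m) (nu m) (LL m) (R m) (kap m) z -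
        cc m * z ^ nu m * ((1 - SS m z + uu (kap m) z ^ LL m / C : ℝ) : ℂ)) +
      (val C (c1 m) (nu m + N m) (LL m) (R m) 2 z -
        c1 m * z ^ (nu m + N m) * ((1 - SS m z + uu 2 z ^ LL m / C : ℝ) : ℂ)))
      (val C (cc (m+1)) (nu (m+1)) (LL (m+1)) (R (m+1)) (kap (m+1)) z -
        cc (m + 1) * z ^ nu (m + 1) * ((1 - SS m z + uu (kap (m + 1)) z ^ LL m / C : ℝ) : ℂ))
  have t3 := norm_add_le (((∑' k, AA C k z) - AA C m z - AA C (m+1) z) +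
      (val C (cc m) (nu m) (LL m) (R m) (kap m) z -
        cc m * z ^ nu m * ((1 - SS m z + uu (kap m) z ^ LL m / C : ℝ) : ℂ)))
      (val C (c1 m) (nu m + N m) (LL m) (R m) 2 z -
        c1 m * z ^ (nu m + N m) * ((1 - SS m z + uu 2 z ^ LL m / C : ℝ) : ℂ))
  have t4 := norm_add_le ((∑' k, AA C k z) - AA C m z - AA C (m+1) z)
      (val C (cc m) (nu m) (LL m) (R m) (kap m) z -
        cc m * z ^ nu m * ((1 - SS m z + uu (kap m) z ^ LL m / C : ℝ) : ℂ))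
  have e2 : er0 C m * mu m ‖z‖ = 90 * BB C * (9/10) ^ m * mu m ‖z‖ +
      mu m ‖z‖ * (BB C * e1 m) + mu m ‖z‖ * (BB C * e1 m) + mu m ‖z‖ * (BB C * e1 m) +
      2 * (2/3) ^ (m + 2) * mu m ‖z‖ * (BB C * (1 + eta m)) := by
    unfold er0; ring
  rw [e2]
  linarith

theorem SS_eq (m : ℕ) (z : ℂ) :
    SS m z = uu (kap m) z ^ LL m + uu 2 z ^ LL m + uu (kap (m + 1)) z ^ LL m := by
  unfold SS
  rw [Fin.sum_univ_three]
  rcases Nat.even_or_odd m with h | h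
  · have h1 : m % 2 = 0 := Nat.even_iff.mp h
    have h2 : (m + 1) % 2 = 1 := by omega
    simp only [kap, h1, h2, if_true, one_ne_zero, if_false]
    ring
  · have h1 : m % 2 = 1 := Nat.odd_iff.mp h
    have h2 : (m + 1) % 2 = 0 := by omega
    simp only [kap, h1, h2, if_true, one_ne_zero, if_false]
    ring

theorem X_le (C : ℝ) (hC : 0 < C) (hC' : C ≤ 2 * ss / ((1 + ss) * √(4 + ss))) (m : ℕ) (z : ℂ)
    (hz : z ≠ 0) :
    ‖cc m * z ^ nu m + c1 m * z ^ (nu m + N m) + cc (m + 1) * z ^ nu (m + 1)‖ ≤ mu m ‖z‖ / C := by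
  have hr : 0 < ‖z‖ := norm_pos_iff.mpr hz
  have hR := R_pos m
  have ht := tt_pos m ‖z‖ hr
  have hs := ss_ge
  have hw : ‖(z / R m) ^ N m‖ = ww m ‖z‖ := by
    rw [norm_pow, norm_div, Complex.norm_real, Real.norm_eq_abs, abs_of_pos hR]; rfl
  have hT : ‖cc m * z ^ nu m‖ = tt m ‖z‖ := by rw [norm_mul, norm_pow]; rfl
  have hm1 : tt m ‖z‖ ≤ mu m ‖z‖ := le_max_left _ _
  have hm2 : al * ww m ‖z‖ * tt m ‖z‖ ≤ mu m ‖z‖ := (le_max_left _ _).trans (le_max_right _ _)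
  have hm3 : tt (m + 1) ‖z‖ ≤ mu m ‖z‖ := (le_max_right _ _).trans (le_max_right _ _)
  rw [tt_succ] at hm3
  rw [three_terms, norm_mul, hT]
  have hb := block' ((z / R m) ^ N m) (mu m ‖z‖ / tt m ‖z‖)
    (by rw [le_div_iff₀ ht]; linarith) (by rw [hw, le_div_iff₀ ht]; linarith)
    (by rw [hw, le_div_iff₀ ht]; linarith)
  have hmu : 0 < mu m ‖z‖ := ht.trans_le hm1
  have hK0 : 0 < √(1 + ss / 4) * (1 + 1 / ss) := by
    have : 0 < √(1 + ss / 4) := Real.sqrt_pos.mpr (by linarith)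
    have : 0 < 1 / ss := by positivity
    positivity
  have h5 : √(1 + ss / 4) * (1 + 1 / ss) ≤ 1 / C := by
    rw [le_div_iff₀ hC]
    exact (mul_le_mul_of_nonneg_left hC' hK0.le).trans (le_of_eq const_eq)
  calc _ ≤ tt m ‖z‖ * (√(1 + ss / 4) * (1 + 1 / ss) * (mu m ‖z‖ / tt m ‖z‖)) := by gcongr
    _ = √(1 + ss / 4) * (1 + 1 / ss) * mu m ‖z‖ := by field_simp
    _ ≤ 1 / C * mu m ‖z‖ := by gcongr
    _ = _ := by ring

theorem U_nonneg (m : ℕ) (z : ℂ) (hz : z ≠ 0) (q : Fin 3) : 0 ≤ uu q z ^ LL m :=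
  pow_nonneg (uu_nonneg q z hz) _

theorem S_le (m : ℕ) (z : ℂ) (hz : z ≠ 0) :
    uu (kap m) z ^ LL m + uu 2 z ^ LL m + uu (kap (m + 1)) z ^ LL m ≤ 1 + 2 * (3/4) ^ LL m := by
  rw [← SS_eq]
  exact three (fun q => uu q z) (fun q => uu_nonneg q z hz) (fun q => uu_le q z hz) (uu_sum z) _

theorem X0_norm (m : ℕ) (z : ℂ) : ‖cc m * z ^ nu m‖ = tt m ‖z‖ := by rw [norm_mul, norm_pow]; rfl

theorem X1_norm (m : ℕ) (z : ℂ) : ‖c1 m * z ^ (nu m + N m)‖ = al * ww m ‖z‖ * tt m ‖z‖ := by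
  rw [norm_mul, norm_pow, c1_norm]

theorem W_up (C : ℝ) (hC : 0 < C) (hC' : C ≤ 2 * ss / ((1 + ss) * √(4 + ss))) (m : ℕ) (z : ℂ) (hz : z ≠ 0) :
    ‖WW C m z‖ ≤ mu m ‖z‖ / C * (1 + 4 * (3/4) ^ LL m) := by
  have hr : 0 < ‖z‖ := norm_pos_iff.mpr hz
  have hm1 : tt m ‖z‖ ≤ mu m ‖z‖ := le_max_left _ _
  have hm2 : al * ww m ‖z‖ * tt m ‖z‖ ≤ mu m ‖z‖ := (le_max_left _ _).trans (le_max_right _ _)
  have hm3 : tt (m + 1) ‖z‖ ≤ mu m ‖z‖ := (le_max_right _ _).trans (le_max_right _ _)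
  have hmu : 0 < mu m ‖z‖ := (tt_pos m ‖z‖ hr).trans_le hm1
  unfold WW
  rw [SS_eq]
  exact combo_up C (mu m ‖z‖) _ _ _ _ hC hmu.le _ _ _ (U_nonneg m z hz _) (U_nonneg m z hz _)
    (U_nonneg m z hz _) (by positivity) (S_le m z hz) (by rw [X0_norm]; exact hm1)
    (by rw [X1_norm]; exact hm2) (by rw [X0_norm]; exact hm3) (X_le C hC hC' m z hz)

theorem uu_center (r : ℝ) (hr : 0 < r) (q : Fin 3) : uu q ((r : ℂ) * (E q)⁻¹) = 1 := by
  have h : ‖(r : ℂ) * (E q)⁻¹‖ = r := by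
    rw [norm_mul, norm_inv, E_norm, Complex.norm_real, Real.norm_eq_abs, abs_of_pos hr]; simp
  unfold uu
  rw [h]
  have hr' : (r : ℂ) ≠ 0 := by exact_mod_cast hr.ne'
  have e : (r : ℂ) * (E q)⁻¹ / r * E q = 1 := by
    have := E_ne q
    field_simp
  rw [e]; norm_num

theorem W_low (C : ℝ) (hC : 0 < C) (hC' : C ≤ 2 * ss / ((1 + ss) * √(4 + ss))) (m : ℕ) (r : ℝ) (hr : 0 < r) :
    ∃ z : ℂ, ‖z‖ = r ∧ mu m r / C * (1 - 4 * (3/4) ^ LL m) ≤ ‖WW C m z‖ := by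
  have hz0 : ∀ q, ‖(r : ℂ) * (E q)⁻¹‖ = r := by
    intro q
    rw [norm_mul, norm_inv, E_norm, Complex.norm_real, Real.norm_eq_abs, abs_of_pos hr]; simp
  have hzn : ∀ q, (r : ℂ) * (E q)⁻¹ ≠ 0 := by
    intro q; rw [← norm_pos_iff, hz0]; exact hr
  have hm1 : tt m r ≤ mu m r := le_max_left _ _
  have hm2 : al * ww m r * tt m r ≤ mu m r := (le_max_left _ _).trans (le_max_right _ _)
  have hm3 : tt (m + 1) r ≤ mu m r := (le_max_right _ _).trans (le_max_right _ _)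
  have hmu : 0 < mu m r := (tt_pos m r hr).trans_le hm1
  have hs : (0:ℝ) ≤ (3/4) ^ LL m := by positivity
  have hcase : mu m r = tt m r ∨ mu m r = al * ww m r * tt m r ∨ mu m r = tt (m + 1) r := by
    unfold mu
    rcases max_choice (tt m r) (max (al * ww m r * tt m r) (tt (m + 1) r)) with h | h
    · left; exact h
    · rcases max_choice (al * ww m r * tt m r) (tt (m + 1) r) with h' | h'
      · right; left; rw [h, h']
      · right; right; rw [h, h']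
  rcases hcase with h | h | h
  · set z := (r : ℂ) * (E (kap m))⁻¹ with hz
    have hzr : ‖z‖ = r := hz0 _
    have hzz : z ≠ 0 := hzn _
    have hu : uu (kap m) z ^ LL m = 1 := by rw [hz, uu_center r hr, one_pow]
    refine ⟨z, hzr, ?_⟩
    have hS := S_le m z hzz
    rw [hu] at hS
    have hX := X_le C hC hC' m z hzz
    rw [hzr] at hX
    have := combo_low C (mu m r) ((3/4) ^ LL m) (uu 2 z ^ LL m) (uu (kap (m+1)) z ^ LL m) hC hmu.le
      (cc m * z ^ nu m) (c1 m * z ^ (nu m + N m)) (cc (m+1) * z ^ nu (m+1)) (U_nonneg m z hzz _)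
      (U_nonneg m z hzz _) hs hS (by rw [X0_norm, hzr, h]) (by rw [X1_norm, hzr]; exact hm2)
      (by rw [X0_norm, hzr]; exact hm3) hX
    unfold WW
    rw [SS_eq, hu]
    exact this
  · set z := (r : ℂ) * (E 2)⁻¹ with hz
    have hzr : ‖z‖ = r := hz0 _
    have hzz : z ≠ 0 := hzn _
    have hu : uu 2 z ^ LL m = 1 := by rw [hz, uu_center r hr, one_pow]
    refine ⟨z, hzr, ?_⟩
    have hS := S_le m z hzz
    rw [hu] at hS
    have hX := X_le C hC hC' m z hzz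
    rw [hzr] at hX
    have := combo_low C (mu m r) ((3/4) ^ LL m) (uu (kap m) z ^ LL m) (uu (kap (m+1)) z ^ LL m) hC hmu.le
      (c1 m * z ^ (nu m + N m)) (cc m * z ^ nu m) (cc (m+1) * z ^ nu (m+1)) (U_nonneg m z hzz _)
      (U_nonneg m z hzz _) hs (by linarith) (by rw [X1_norm, hzr, h]) (by rw [X0_norm, hzr]; exact hm1)
      (by rw [X0_norm, hzr]; exact hm3) (by rw [add_comm (c1 m * z ^ (nu m + N m))]; exact hX)
    refine this.trans (le_of_eq ?_)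
    unfold WW
    rw [SS_eq, hu]
    congr 1
    push_cast
    ring
  · set z := (r : ℂ) * (E (kap (m + 1)))⁻¹ with hz
    have hzr : ‖z‖ = r := hz0 _
    have hzz : z ≠ 0 := hzn _
    have hu : uu (kap (m + 1)) z ^ LL m = 1 := by rw [hz, uu_center r hr, one_pow]
    refine ⟨z, hzr, ?_⟩
    have hS := S_le m z hzz
    rw [hu] at hS
    have hX := X_le C hC hC' m z hzz
    rw [hzr] at hX
    have := combo_low C (mu m r) ((3/4) ^ LL m) (uu (kap m) z ^ LL m) (uu 2 z ^ LL m) hC hmu.le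
      (cc (m+1) * z ^ nu (m+1)) (cc m * z ^ nu m) (c1 m * z ^ (nu m + N m)) (U_nonneg m z hzz _)
      (U_nonneg m z hzz _) hs (by linarith) (by rw [X0_norm, hzr, h]) (by rw [X0_norm, hzr]; exact hm1)
      (by rw [X1_norm, hzr]; exact hm2)
      (by
        have e : cc (m+1) * z ^ nu (m+1) + cc m * z ^ nu m + c1 m * z ^ (nu m + N m) =
          cc m * z ^ nu m + c1 m * z ^ (nu m + N m) + cc (m + 1) * z ^ nu (m + 1) := by ring
        rw [e]; exact hX)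
    refine this.trans (le_of_eq ?_)
    unfold WW
    rw [SS_eq, hu]
    congr 1
    push_cast
    ring

end Pool.Agent.Helper33E
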