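import Pool.Agent.Helper33E.Win

/-!
The function, its coefficients, and what matters in a window.
-/

set_option autoImplicit false

open Filter Topology

namespace Pool.Agent.Helper33E

/-- class of `T_k` -/
def kap (k : ℕ) : Fin 3 := if k % 2 = 0 then 0 else 1

/-- the coefficients of block `k` -/
noncomputable def bb (C : ℝ) (k t : ℕ) : ℂ :=
  blk C (cc k) (nu k) (LL k) (R k) (kap k) t + blk C (c1 k) (nu k + N k) (LL k) (R k) 2 t

/-- the value of block `k` -/
noncomputable def AA (C : ℝ) (k : ℕ) (z : ℂ) : ℂ :=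
  val C (cc k) (nu k) (LL k) (R k) (kap k) z + val C (c1 k) (nu k + N k) (LL k) (R k) 2 z

/-- the coefficients -/
noncomputable def aa (C : ℝ) (t : ℕ) : ℂ := ∑' k, bb C k t

theorem BB_pos (C : ℝ) (hC : 0 < C) : 0 < BB C := by unfold BB; positivity

theorem bb_hasSum (C : ℝ) (k : ℕ) (z : ℂ) (hz : z ≠ 0) :
    HasSum (fun t => bb C k t * z ^ t) (AA C k z) := by
  have h1 := blk_hasSum C (cc k) (nu k) (LL k) (R k) (kap k) z hz (LL_nu k)
  have h2 := blk_hasSum C (c1 k) (nu k + N k) (LL k) (R k) 2 z hz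
    (by have := LL_nu k; omega)
  have h3 := h1.add h2
  have e : (fun t => bb C k t * z ^ t) = fun t => blk C (cc k) (nu k) (LL k) (R k) (kap k) t * z ^ t
      + blk C (c1 k) (nu k + N k) (LL k) (R k) 2 t * z ^ t := by
    funext t; rw [bb, add_mul]
  rw [e]; exact h3

theorem bb_abs (C : ℝ) (hC : 0 < C) (k : ℕ) (r : ℝ) (hr : 0 < r) :
    Summable (fun t => ‖bb C k t‖ * r ^ t) ∧ ∑' t, ‖bb C k t‖ * r ^ t ≤ BB C * D k r := by
  have h1 := blk_abs C hC (cc k) (nu k) (LL k) (R k) r (mx k r) (kap k) (R_pos k) hr (LL_nu k)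
    (le_max_left _ _) (le_max_right _ _)
  have h2 := blk_abs C hC (c1 k) (nu k + N k) (LL k) (R k) r (mx k r) 2 (R_pos k) hr
    (by have := LL_nu k; omega) (le_max_left _ _) (le_max_right _ _)
  have h3 : ∀ t, ‖bb C k t‖ * r ^ t ≤ ‖blk C (cc k) (nu k) (LL k) (R k) (kap k) t‖ * r ^ t
      + ‖blk C (c1 k) (nu k + N k) (LL k) (R k) 2 t‖ * r ^ t := by
    intro t
    rw [← add_mul]
    have := norm_add_le (blk C (cc k) (nu k) (LL k) (R k) (kap k) t)
      (blk C (c1 k) (nu k + N k) (LL k) (R k) 2 t)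
    unfold bb
    gcongr
  have hs := Summable.of_nonneg_of_le (fun t => by positivity) h3 (h1.1.add h2.1)
  refine ⟨hs, ?_⟩
  have h4 := hs.tsum_le_tsum h3 (h1.1.add h2.1)
  rw [h1.1.tsum_add h2.1] at h4
  rw [c1_norm] at h2
  have e : ‖cc k‖ * r ^ nu k = tt k r := rfl
  rw [e] at h1
  have hmx : 0 ≤ mx k r ^ LL k :=
    pow_nonneg (le_trans (show 0 ≤ r / R k by have := R_pos k; positivity) (le_max_left _ _)) _
  have hB := (BB_pos C hC).le
  have ht := (tt_pos k r hr).le
  have hw := (ww_pos k r hr).le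
  have h22 : al * ww k r * tt k r * (BB C * mx k r ^ LL k) ≤
      2 * ww k r * tt k r * (BB C * mx k r ^ LL k) := by
    have := al_le
    gcongr
  calc _ ≤ _ := h4
    _ ≤ tt k r * (BB C * mx k r ^ LL k) + 2 * ww k r * tt k r * (BB C * mx k r ^ LL k) :=
        add_le_add h1.2 (h2.2.trans h22)
    _ = _ := by unfold D; ring

theorem window (r : ℝ) (hr : 1/2 ≤ r) : ∃ m : ℕ, (m:ℝ) + 1/2 ≤ r ∧ r ≤ (m:ℝ) + 3/2 := by
  refine ⟨⌊r - 1/2⌋₊, ?_, ?_⟩
  · have := Nat.floor_le (show 0 ≤ r - 1/2 by linarith)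
    linarith
  · have := Nat.lt_floor_add_one (r - 1/2)
    linarith

theorem D_nonneg (k : ℕ) (r : ℝ) (hr : 0 < r) : 0 ≤ D k r := by
  have := tt_pos k r hr
  have := ww_pos k r hr
  have := R_pos k
  have : 0 < mx k r := lt_of_lt_of_le (show 0 < r / R k by positivity) (le_max_left _ _)
  unfold D; positivity

theorem D_summable (r : ℝ) (hr : 1/2 ≤ r) : Summable (fun k => D k r) := by
  obtain ⟨m, h1, h2⟩ := window r hr
  have hr0 : 0 < r := by linarith
  have hg : Summable (fun k : ℕ => 9 * mu m r * (9/10 : ℝ) ^ m * (9/10) ^ k) :=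
    (summable_geometric_of_lt_one (by norm_num) (by norm_num)).mul_left _
  have hf : Summable (fun k : ℕ => (if k = m then D m r else 0) + if k = m + 1 then D (m+1) r else 0) :=
    (hasSum_ite_eq m _).summable.add (hasSum_ite_eq (m+1) _).summable
  refine Summable.of_nonneg_of_le (fun k => D_nonneg k r hr0) ?_ (hg.add hf)
  intro k
  have hmu : 0 < mu m r := (tt_pos m r hr0).trans_le (le_max_left _ _)
  have hp : 0 ≤ 9 * mu m r * (9/10 : ℝ) ^ m * (9/10) ^ k := by positivity
  have hm := D_nonneg m r hr0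
  have hm' := D_nonneg (m+1) r hr0
  by_cases h3 : k = m
  · subst h3
    have : k ≠ k + 1 := by omega
    simp only [if_true, this, if_false]
    linarith
  · by_cases h4 : k = m + 1
    · subst h4
      simp only [if_true, h3, if_false]
      linarith
    · simp only [h3, h4, if_false]
      have := D_all m k h3 h4 r h1 h2
      linarith

theorem double (C : ℝ) (hC : 0 < C) (r : ℝ) (hr : 1/2 ≤ r) :
    Summable (fun p : ℕ × ℕ => ‖bb C p.1 p.2‖ * r ^ p.2) := by
  have hr0 : 0 < r := by linarith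
  rw [summable_prod_of_nonneg (fun p => by positivity)]
  refine ⟨fun k => (bb_abs C hC k r hr0).1, ?_⟩
  refine Summable.of_nonneg_of_le (fun k => tsum_nonneg (fun t => by positivity))
    (fun k => (bb_abs C hC k r hr0).2) ((D_summable r hr).mul_left _)

theorem aa_abs (C : ℝ) (hC : 0 < C) (r : ℝ) (hr : 1/2 ≤ r) :
    Summable (fun t => ‖aa C t‖ * r ^ t) := by
  have hr0 : 0 < r := by linarith
  have h := (double C hC r hr).prod_symm
  have h1 : Summable (fun t => ∑' k, ‖bb C k t‖ * r ^ t) := h.prod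
  refine Summable.of_nonneg_of_le (fun t => by positivity) ?_ h1
  intro t
  have h2 : Summable (fun k => ‖bb C k t‖ * r ^ t) := h.prod_factor t
  rw [tsum_mul_right]
  have h3 : Summable (fun k => ‖bb C k t‖) := by
    have := h2.mul_right ((r ^ t)⁻¹)
    refine this.congr ?_
    intro k
    have : r ^ t ≠ 0 := by positivity
    field_simp
  have := norm_tsum_le_tsum_norm h3
  unfold aa
  gcongr

theorem aa_hasSum (C : ℝ) (hC : 0 < C) (z : ℂ) (hz : 1/2 ≤ ‖z‖) :
    HasSum (fun t => aa C t * z ^ t) (∑' k, AA C k z) := by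
  have hz0 : z ≠ 0 := by intro h; rw [h] at hz; norm_num at hz
  have h := (double C hC ‖z‖ hz)
  have h0 : Summable (fun p : ℕ × ℕ => bb C p.1 p.2 * z ^ p.2) := by
    apply Summable.of_norm
    refine h.congr ?_
    intro p; rw [norm_mul, norm_pow]
  have h1 := h0.hasSum
  have h2 : HasSum (fun k => AA C k z) (∑' p : ℕ × ℕ, bb C p.1 p.2 * z ^ p.2) :=
    h1.prod_fiberwise (fun k => bb_hasSum C k z hz0)
  rw [h2.tsum_eq]
  have h3 : Summable (fun p : ℕ × ℕ => bb C p.2 p.1 * z ^ p.1) := h0.prod_symm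
  have h4 : ∑' p : ℕ × ℕ, bb C p.2 p.1 * z ^ p.1 = ∑' p : ℕ × ℕ, bb C p.1 p.2 * z ^ p.2 :=
    (Equiv.prodComm ℕ ℕ).tsum_eq (fun p : ℕ × ℕ => bb C p.1 p.2 * z ^ p.2)
  have h5 := h3.hasSum
  rw [h4] at h5
  refine h5.prod_fiberwise (fun t => ?_)
  have h6 : Summable (fun k => bb C k t * z ^ t) := h3.prod_factor t
  have h7 : Summable (fun k => bb C k t) := by
    have := h6.mul_right ((z ^ t)⁻¹)
    refine this.congr ?_
    intro k
    have : z ^ t ≠ 0 := pow_ne_zero _ hz0
    field_simp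
  exact h7.hasSum.mul_right _

/-- only two blocks matter in a window -/
theorem two_blocks (C : ℝ) (hC : 0 < C) (F : ℕ → ℂ) (m : ℕ) (r : ℝ) (h1 : (m:ℝ) + 1/2 ≤ r)
    (h2 : r ≤ (m:ℝ) + 3/2) (hF : ∀ k, ‖F k‖ ≤ BB C * D k r) :
    ‖(∑' k, F k) - F m - F (m + 1)‖ ≤ 90 * BB C * (9/10) ^ m * mu m r := by
  have hr : 0 < r := by have : (0:ℝ) ≤ m := by positivity
                        linarith
  have hB := BB_pos C hC
  have hmu : 0 < mu m r := (tt_pos m r hr).trans_le (le_max_left _ _)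
  set G : ℕ → ℂ := fun k => if k = m then 0 else if k = m + 1 then 0 else F k with hG
  have hmaj : HasSum (fun k : ℕ => BB C * (9 * mu m r * (9/10 : ℝ) ^ m) * (9/10) ^ k)
      (BB C * (9 * mu m r * (9/10 : ℝ) ^ m) * (1 - 9/10)⁻¹) :=
    (hasSum_geometric_of_lt_one (by norm_num) (by norm_num)).mul_left _
  have hGle : ∀ k, ‖G k‖ ≤ BB C * (9 * mu m r * (9/10 : ℝ) ^ m) * (9/10) ^ k := by
    intro k
    simp only [hG]
    split_ifs with h3 h4
    · rw [norm_zero]; positivity
    · rw [norm_zero]; positivity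
    · refine (hF k).trans ?_
      have := D_all m k h3 h4 r h1 h2
      calc _ ≤ BB C * (9 * mu m r * (9/10) ^ m * (9/10) ^ k) := by gcongr
        _ = _ := by ring
  have hGs : Summable G := Summable.of_norm_bounded hmaj.summable hGle
  have hsum : HasSum (fun k => G k + (if k = m then F m else 0) + if k = m + 1 then F (m+1) else 0)
      (∑' k, G k + F m + F (m+1)) :=
    (hGs.hasSum.add (hasSum_ite_eq m _)).add (hasSum_ite_eq (m+1) _)
  have e : (fun k => G k + (if k = m then F m else 0) + if k = m + 1 then F (m+1) else 0) = F := by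
    funext k
    simp only [hG]
    by_cases h3 : k = m
    · subst h3
      have : k ≠ k + 1 := by omega
      simp
    · by_cases h4 : k = m + 1
      · subst h4; simp
      · simp [h3, h4]
  rw [e] at hsum
  rw [hsum.tsum_eq]
  have e2 : ∑' k, G k + F m + F (m + 1) - F m - F (m + 1) = ∑' k, G k := by ring
  rw [e2]
  refine (tsum_of_norm_bounded hmaj hGle).trans (le_of_eq ?_)
  norm_num
  ring

end Pool.Agent.Helper33E
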