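import Pool.Agent.Helper33E.Blk

/-!
The main terms and their sizes.
-/

set_option autoImplicit false

open Filter Topology

namespace Pool.Agent.Helper33E

/-- radii -/
noncomputable def R (k : ℕ) : ℝ := k + 1

/-- exponents of `w_k = (z / (k + 1)) ^ N k` -/
def N (k : ℕ) : ℕ := (k + 1) ^ 2

/-- exponents of the main terms `T_k` -/
def nu : ℕ → ℕ
  | 0 => 1
  | k + 1 => nu k + 2 * N k

/-- coefficients of the main terms `T_k` -/
noncomputable def cc : ℕ → ℂ
  | 0 => 1
  | k + 1 => - cc k / ((R k : ℂ) ^ (N k)) ^ 2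

/-- coefficients of the main terms `a w_k T_k` -/
noncomputable def c1 (k : ℕ) : ℂ := al * cc k / (R k : ℂ) ^ (N k)

/-- half of the degree of the bumps -/
def LL (k : ℕ) : ℕ := Nat.sqrt k

/-- `|T_k|` on the circle of radius `r` -/
noncomputable def tt (k : ℕ) (r : ℝ) : ℝ := ‖cc k‖ * r ^ nu k

/-- `|w_k|` on the circle of radius `r` -/
noncomputable def ww (k : ℕ) (r : ℝ) : ℝ := (r / R k) ^ N k

theorem R_pos (k : ℕ) : 0 < R k := by unfold R; positivity

theorem nu_ge (k : ℕ) : k + 1 ≤ nu k := by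
  induction k with
  | zero => simp [nu]
  | succ n ih => simp only [nu, N]; nlinarith

theorem LL_le (k : ℕ) : LL k ≤ k := Nat.sqrt_le_self k

theorem LL_nu (k : ℕ) : LL k ≤ nu k := by have := nu_ge k; have := LL_le k; omega

theorem cc_ne (k : ℕ) : cc k ≠ 0 := by
  induction k with
  | zero => simp [cc]
  | succ n ih =>
    have h : (R n : ℂ) ≠ 0 := by exact_mod_cast (R_pos n).ne'
    simp only [cc]
    exact div_ne_zero (neg_ne_zero.mpr ih) (pow_ne_zero _ (pow_ne_zero _ h))

theorem tt_pos (k : ℕ) (r : ℝ) (hr : 0 < r) : 0 < tt k r := by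
  have := norm_pos_iff.mpr (cc_ne k)
  unfold tt; positivity

theorem ww_pos (k : ℕ) (r : ℝ) (hr : 0 < r) : 0 < ww k r := by
  have := R_pos k
  unfold ww; positivity

theorem tt_succ (k : ℕ) (r : ℝ) : tt (k + 1) r = ww k r ^ 2 * tt k r := by
  have h := R_pos k
  unfold tt ww
  simp only [cc, nu]
  rw [norm_div, norm_neg, norm_pow, norm_pow, Complex.norm_real, Real.norm_eq_abs, abs_of_pos h]
  rw [pow_add, div_pow, mul_comm 2 (N k), pow_mul]
  field_simp

theorem c1_norm (k : ℕ) (r : ℝ) : ‖c1 k‖ * r ^ (nu k + N k) = al * ww k r * tt k r := by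
  have h := R_pos k
  unfold tt ww c1
  rw [norm_div, norm_mul, norm_pow, Complex.norm_real, Complex.norm_real, Real.norm_eq_abs,
    Real.norm_eq_abs, abs_of_pos h, abs_of_pos al_pos, div_pow, pow_add]
  field_simp

/-- `T_{k+1} = - w_k² T_k` and the block of three -/
theorem three_terms (k : ℕ) (z : ℂ) :
    cc k * z ^ nu k + c1 k * z ^ (nu k + N k) + cc (k + 1) * z ^ nu (k + 1) =
      cc k * z ^ nu k * (1 + al * (z / R k) ^ N k - ((z / R k) ^ N k) ^ 2) := by
  have h : (R k : ℂ) ≠ 0 := by exact_mod_cast (R_pos k).ne'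
  unfold c1
  simp only [cc, nu]
  rw [pow_add, pow_add, div_pow, mul_comm 2 (N k), pow_mul]
  field_simp
  ring

/-- `(1 + 1 / (2 (k + 1))) ^ (k + 1) ≥ 3 / 2` -/
theorem bern (k : ℕ) : (3 / 2 : ℝ) ≤ (1 + 1 / (2 * R k)) ^ (k + 1) := by
  have h := R_pos k
  have := one_add_mul_le_pow (a := 1 / (2 * R k)) (by have : 0 < 1 / (2 * R k) := by positivity
                                                      linarith) (k + 1)
  have e : (1:ℝ) + ((k + 1 : ℕ) : ℝ) * (1 / (2 * R k)) = 3 / 2 := by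
    unfold R at h ⊢; push_cast; field_simp; norm_num
  rw [e] at this
  exact this

/-- below the window -/
theorem below (m k : ℕ) (hk : k < m) (r : ℝ) (h1 : (m:ℝ) + 1/2 ≤ r) :
    3 / 2 ≤ (r / R k) ^ (k + 1) := by
  have h := R_pos k
  refine (bern k).trans ?_
  have h2 : 1 + 1 / (2 * R k) ≤ r / R k := by
    rw [le_div_iff₀ h]
    have e : (1 + 1 / (2 * R k)) * R k = R k + 1/2 := by field_simp
    rw [e]
    have : ((k:ℝ) + 1) ≤ m := by exact_mod_cast hk
    unfold R; linarith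
  have : 0 < 1 + 1 / (2 * R k) := by positivity
  gcongr

/-- above the window -/
theorem above (m k : ℕ) (hk : m < k) (r : ℝ) (hr : 0 < r) (h2 : r ≤ (m:ℝ) + 3/2) :
    (r / R k) ^ (k + 1) ≤ 2 / 3 := by
  have h := R_pos k
  have hx : 0 < 1 / (2 * R k) := by positivity
  have h3 : r / R k ≤ (1 + 1 / (2 * R k))⁻¹ := by
    have h4 : r / R k ≤ 1 - 1 / (2 * R k) := by
      rw [div_le_iff₀ h]
      have e : (1 - 1 / (2 * R k)) * R k = R k - 1/2 := by field_simp
      rw [e]
      have : ((m:ℝ) + 1) ≤ k := by exact_mod_cast hk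
      unfold R; linarith
    refine h4.trans ?_
    rw [← one_div, le_div_iff₀ (by positivity)]
    nlinarith
  have h5 : 0 ≤ r / R k := by positivity
  calc (r / R k) ^ (k + 1) ≤ ((1 + 1 / (2 * R k))⁻¹) ^ (k + 1) := by gcongr
    _ = ((1 + 1 / (2 * R k)) ^ (k + 1))⁻¹ := by rw [inv_pow]
    _ ≤ (3 / 2)⁻¹ := by
        have := bern k
        gcongr
    _ = 2 / 3 := by norm_num

theorem ww_eq (k : ℕ) (r : ℝ) : ww k r = ((r / R k) ^ (k + 1)) ^ (k + 1) := by
  unfold ww N; rw [← pow_mul, sq]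

theorem ww_low (m k : ℕ) (hk : k < m) (r : ℝ) (h1 : (m:ℝ) + 1/2 ≤ r) :
    3 / 2 ≤ ww k r := by
  have h := below m k hk r h1
  rw [ww_eq]
  have h1 : (1:ℝ) ≤ (r / R k) ^ (k + 1) := by linarith
  calc (3/2 : ℝ) ≤ (r / R k) ^ (k + 1) := h
    _ = ((r / R k) ^ (k + 1)) ^ 1 := (pow_one _).symm
    _ ≤ _ := pow_le_pow_right₀ h1 (by omega)

theorem ww_high (m k : ℕ) (hk : m < k) (r : ℝ) (hr : 0 < r) (h2 : r ≤ (m:ℝ) + 3/2) :
    ww k r ≤ (2 / 3) ^ (k + 1) := by
  have h := above m k hk r hr h2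
  have := R_pos k
  rw [ww_eq]
  gcongr

theorem tt_low (m : ℕ) (r : ℝ) (h1 : (m:ℝ) + 1/2 ≤ r) (j k : ℕ) (hk : k + j = m) :
    tt k r ≤ (2/3) ^ j * tt m r := by
  have hr : 0 < r := by have : (0:ℝ) ≤ m := by positivity
                        linarith
  induction j generalizing k with
  | zero => simp at hk; rw [hk]; simp
  | succ n ih =>
    have h := ih (k + 1) (by omega)
    have hw := ww_low m k (by omega) r h1
    have e := tt_succ k r
    have hp := tt_pos k r hr
    have h3 : tt k r ≤ 2/3 * tt (k+1) r := by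
      have hw2 : 9 / 4 ≤ ww k r ^ 2 := by nlinarith
      rw [e]; nlinarith
    calc _ ≤ 2/3 * tt (k+1) r := h3
      _ ≤ 2/3 * ((2/3) ^ n * tt m r) := by gcongr
      _ = _ := by ring

theorem tt_high (m : ℕ) (r : ℝ) (hr : 0 < r) (h2 : r ≤ (m:ℝ) + 3/2) (j : ℕ) :
    tt (m + 1 + j) r ≤ tt (m + 1) r := by
  induction j with
  | zero => simp
  | succ n ih =>
    have e : m + 1 + (n + 1) = (m + 1 + n) + 1 := by ring
    rw [e, tt_succ]
    have hw := ww_high m (m + 1 + n) (by omega) r hr h2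
    have hw0 := ww_pos (m + 1 + n) r hr
    have hw1 : ww (m + 1 + n) r ≤ 1 := hw.trans (pow_le_one₀ (by norm_num) (by norm_num))
    have hp := tt_pos (m + 1 + n) r hr
    have h3 : ww (m + 1 + n) r ^ 2 ≤ 1 := by nlinarith
    calc _ ≤ 1 * tt (m + 1 + n) r := by gcongr
      _ ≤ _ := by rw [one_mul]; exact ih

/-- the modulation on the circle of radius `r` -/
noncomputable def mx (k : ℕ) (r : ℝ) : ℝ := max (r / R k) (r / R k)⁻¹

/-- size of a block -/
noncomputable def D (k : ℕ) (r : ℝ) : ℝ := tt k r * (1 + 2 * ww k r) * mx k r ^ LL k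

/-- the largest main term in the window -/
noncomputable def mu (m : ℕ) (r : ℝ) : ℝ := max (tt m r) (max (al * ww m r * tt m r) (tt (m + 1) r))

theorem D_low (m k : ℕ) (hk : k < m) (r : ℝ) (h1 : (m:ℝ) + 1/2 ≤ r) :
    D k r ≤ 3 * (2/3) ^ k * tt (k + 1) r := by
  have hr : 0 < r := by have : (0:ℝ) ≤ m := by positivity
                        linarith
  have hR := R_pos k
  have hv := below m k hk r h1
  have hy0 : 0 < r / R k := by positivity
  have hy : 1 ≤ r / R k := by
    by_contra hcon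
    push Not at hcon
    have : (r / R k) ^ (k + 1) ≤ 1 := pow_le_one₀ hy0.le hcon.le
    linarith
  have hmx : mx k r = r / R k := by
    unfold mx
    exact max_eq_left ((inv_le_one_of_one_le₀ hy).trans hy)
  set v := (r / R k) ^ (k + 1) with hvd
  have hvp : 0 < v := by positivity
  have hw : ww k r = v ^ (k + 1) := ww_eq k r
  have hw1 : 1 ≤ ww k r := by have := ww_low m k hk r h1; linarith
  have hL : mx k r ^ LL k ≤ v := by
    rw [hmx, hvd]
    exact pow_le_pow_right₀ hy (by have := LL_le k; omega)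
  have ht := tt_pos k r hr
  have ht' := tt_pos (k+1) r hr
  have e := tt_succ k r
  have hvk : (1:ℝ) ≤ (2/3) ^ k * v ^ k := by
    rw [← mul_pow]
    apply one_le_pow₀
    linarith
  have hww := ww_pos k r hr
  have hmx0 : 0 ≤ mx k r ^ LL k := by rw [hmx]; positivity
  calc D k r = tt k r * (1 + 2 * ww k r) * mx k r ^ LL k := rfl
    _ ≤ tt k r * (3 * ww k r) * v := by
        gcongr
        linarith
    _ ≤ tt k r * (3 * ww k r) * v * ((2/3) ^ k * v ^ k) := by
        have h0 : 0 ≤ tt k r * (3 * ww k r) * v := by positivity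
        nlinarith
    _ = 3 * (2/3) ^ k * (ww k r * v ^ (k + 1) * tt k r) := by ring
    _ = 3 * (2/3) ^ k * tt (k + 1) r := by rw [← hw, e]; ring

theorem D_high (m j : ℕ) (hj : m < j) (r : ℝ) (hr : 0 < r) (h2 : r ≤ (m:ℝ) + 3/2) :
    D (j + 1) r ≤ 9 * (2/3) ^ (j + 1) * tt j r := by
  have hR := R_pos j
  have hR' := R_pos (j+1)
  have hv := above m j hj r hr h2
  have hv' := above m (j + 1) (by omega) r hr h2
  have hy0 : 0 < r / R (j + 1) := by positivity
  have hy : r / R (j + 1) ≤ 1 := by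
    by_contra hcon
    push Not at hcon
    have : 1 ≤ (r / R (j + 1)) ^ (j + 1 + 1) := one_le_pow₀ hcon.le
    linarith
  have hmx : mx (j + 1) r = (r / R (j + 1))⁻¹ := by
    unfold mx
    exact max_eq_right (hy.trans ((one_le_inv₀ hy0).mpr hy))
  set v := (r / R j) ^ (j + 1) with hvd
  have hvp : 0 < v := by positivity
  have hw : ww j r = v ^ (j + 1) := ww_eq j r
  have hmx1 : 1 ≤ mx (j + 1) r := by rw [hmx]; exact (one_le_inv₀ hy0).mpr hy
  have hL : mx (j + 1) r ^ LL (j + 1) ≤ 3 * v⁻¹ := by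
    calc _ ≤ mx (j + 1) r ^ (j + 1) := pow_le_pow_right₀ hmx1 (LL_le (j+1))
      _ = (R (j + 1) / R j) ^ (j + 1) * v⁻¹ := by
          rw [hmx, hvd, ← inv_pow, ← mul_pow]
          congr 1
          field_simp
      _ ≤ 3 * v⁻¹ := by
          have h3 : R (j + 1) / R j ≤ Real.exp (1 / (j + 1)) := by
            have h4 := Real.add_one_le_exp (1 / ((j:ℝ) + 1))
            refine le_trans (le_of_eq ?_) h4
            unfold R; push_cast; field_simp; ring
          have h5 : (R (j + 1) / R j) ^ (j + 1) ≤ 3 := by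
            calc _ ≤ (Real.exp (1 / (j + 1))) ^ (j + 1) := by gcongr
              _ = Real.exp 1 := by
                  rw [← Real.exp_nat_mul]
                  congr 1
                  push_cast
                  field_simp
              _ ≤ 3 := by have := Real.exp_one_lt_d9; linarith
          gcongr
  have ht := tt_pos j r hr
  have e := tt_succ j r
  have hw1 : ww (j + 1) r ≤ 1 :=
    (ww_high m (j + 1) (by omega) r hr h2).trans (pow_le_one₀ (by norm_num) (by norm_num))
  have hww := ww_pos j r hr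
  have hv1 : v ≤ 1 := by linarith
  calc D (j + 1) r = tt (j + 1) r * (1 + 2 * ww (j + 1) r) * mx (j + 1) r ^ LL (j + 1) := rfl
    _ ≤ tt (j + 1) r * 3 * (3 * v⁻¹) := by
        have := tt_pos (j + 1) r hr
        have := ww_pos (j + 1) r hr
        gcongr
        linarith
    _ = 9 * (v ^ (j + 1) * (v ^ j * (v * v⁻¹))) * tt j r := by rw [e, hw]; ring
    _ = 9 * (v ^ (j + 1) * v ^ j) * tt j r := by rw [mul_inv_cancel₀ hvp.ne', mul_one]
    _ ≤ 9 * ((2/3) ^ (j + 1) * 1) * tt j r := by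
        gcongr
        exact pow_le_one₀ hvp.le hv1
    _ = _ := by ring

theorem D_all (m k : ℕ) (hk : k ≠ m) (hk' : k ≠ m + 1) (r : ℝ) (h1 : (m:ℝ) + 1/2 ≤ r)
    (h2 : r ≤ (m:ℝ) + 3/2) : D k r ≤ 9 * mu m r * (9/10) ^ m * (9/10) ^ k := by
  have hr : 0 < r := by have : (0:ℝ) ≤ m := by positivity
                        linarith
  have hm1 : tt m r ≤ mu m r := le_max_left _ _
  have hm2 : tt (m + 1) r ≤ mu m r := (le_max_right _ _).trans (le_max_right _ _)
  have hmu : 0 < mu m r := (tt_pos m r hr).trans_le hm1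
  have h23 : ∀ n : ℕ, (2/3 : ℝ) ^ n ≤ (9/10) ^ n * (9/10) ^ n := by
    intro n
    rw [← mul_pow]
    gcongr
    norm_num
  rcases lt_or_gt_of_ne hk with hlt | hgt
  · have h3 := D_low m k hlt r h1
    have h4 := tt_low m r h1 (m - (k + 1)) (k + 1) (by omega)
    have h5 : D k r ≤ 3 * (2/3) ^ (m - 1) * mu m r := by
      calc _ ≤ _ := h3
        _ ≤ 3 * (2/3) ^ k * ((2/3) ^ (m - (k + 1)) * tt m r) := by gcongr
        _ = 3 * (2/3) ^ (m - 1) * tt m r := by
            have : m - 1 = k + (m - (k + 1)) := by omega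
            rw [this, pow_add]; ring
        _ ≤ _ := by gcongr
    have h6 : (2/3 : ℝ) ^ (m - 1) ≤ 3 / 2 * ((9/10) ^ m * (9/10) ^ k) := by
      have h7 : (2/3 : ℝ) ^ (m - 1) = 3 / 2 * (2/3) ^ m := by
        have : m = (m - 1) + 1 := by omega
        conv_rhs => rw [this, pow_succ]
        ring
      rw [h7]
      have h8 := h23 m
      have h9 : (9/10 : ℝ) ^ m ≤ (9/10) ^ k := pow_le_pow_of_le_one (by norm_num) (by norm_num) hlt.le
      have : (9/10 : ℝ) ^ m * (9/10) ^ m ≤ (9/10) ^ m * (9/10) ^ k := by gcongr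
      linarith
    calc _ ≤ _ := h5
      _ ≤ 3 * (3 / 2 * ((9/10) ^ m * (9/10) ^ k)) * mu m r := by gcongr
      _ ≤ 9 * mu m r * (9/10) ^ m * (9/10) ^ k := by
          have : 0 < mu m r * ((9/10) ^ m * (9/10) ^ k) := by positivity
          nlinarith
  · obtain ⟨j, rfl⟩ : ∃ j, k = (m + 1 + j) + 1 := ⟨k - m - 2, by omega⟩
    have h3 := D_high m (m + 1 + j) (by omega) r hr h2
    have h4 := tt_high m r hr h2 j
    have h8 := h23 (m + 1 + j + 1)
    have h9 : (9/10 : ℝ) ^ (m + 1 + j + 1) ≤ (9/10) ^ m :=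
      pow_le_pow_of_le_one (by norm_num) (by norm_num) (by omega)
    calc _ ≤ _ := h3
      _ ≤ 9 * ((9/10) ^ m * (9/10) ^ (m + 1 + j + 1)) * mu m r := by
          have : (9/10 : ℝ) ^ (m + 1 + j + 1) * (9/10) ^ (m + 1 + j + 1) ≤
            (9/10) ^ m * (9/10) ^ (m + 1 + j + 1) := by gcongr
          have h10 := h8.trans this
          have h11 := h4.trans hm2
          have h12 := (tt_pos (m + 1 + j) r hr).le
          gcongr
      _ = _ := by ring

end Pool.Agent.Helper33E
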